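import Pool.Agent.Lib.MP_9675a1_al.Lr.Defs

/-! Weight spaces and self-centralising normal subgroups. -/

namespace Pool.Agent.Lib.MP_9675a1_al.Lr

open Module MulAction

variable {F V G Y ι : Type} [Field F] [AddCommGroup V] [Module F V] [Group G] {p : ℕ}

theorem wt_indep (T : ι → End F V) : iSupIndep (wt T) :=
  iSupIndep.iInf (fun i => (T i).eigenspace) fun i => (T i).eigenspaces_iSupIndep

theorem exists_wt [IsAlgClosed F] (T : ι → End F V) (W : Submodule F V) [FiniteDimensional F W]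
    (hW : W ≠ ⊥) (h1 : ∀ i, ∀ w ∈ W, T i w ∈ W)
    (h2 : ∀ i j, ∀ w ∈ W, T i (T j w) = T j (T i w)) : ∃ χ, W ⊓ wt T χ ≠ ⊥ := by
  induction hn : finrank F W using Nat.strong_induction_on generalizing W with
  | _ n ih =>
  by_cases hs : ∀ i, ∃ c : F, W ≤ (T i).eigenspace c
  · choose χ hχ using hs
    exact ⟨χ, by rwa [inf_eq_left.2 (show W ≤ wt T χ from le_iInf hχ)]⟩
  push Not at hs
  obtain ⟨i, hi⟩ := hs
  have : Nontrivial W := Submodule.nontrivial_iff_ne_bot.2 hW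
  obtain ⟨c, hc⟩ := End.exists_eigenvalue ((T i).restrict (h1 i) : End F W)
  obtain ⟨w, hw⟩ := hc.exists_hasEigenvector
  have h3 : (w : V) ∈ W ⊓ (T i).eigenspace c :=
    ⟨w.2, End.mem_eigenspace_iff.2 (congrArg Subtype.val hw.apply_eq_smul)⟩
  have h4 : W ⊓ (T i).eigenspace c < W := lt_of_le_of_ne inf_le_left fun h => hi c (inf_eq_left.1 h)
  have := Submodule.finiteDimensional_of_le h4.le
  obtain ⟨χ, hχ⟩ := ih _ (hn ▸ Submodule.finrank_lt_finrank_of_lt h4) (W ⊓ (T i).eigenspace c)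
    (fun h => hw.2 (Subtype.ext ((Submodule.mem_bot F).1 (h ▸ h3))))
    (fun j v hv => ⟨h1 j v hv.1, End.mem_eigenspace_iff.2 (by
      rw [h2 i j v hv.1, End.mem_eigenspace_iff.1 hv.2, map_smul])⟩)
    (fun j l v hv => h2 j l v hv.1) rfl
  exact ⟨χ, fun h => hχ (le_bot_iff.1 (h ▸ inf_le_inf_right _ h4.le))⟩

theorem indep_card {E : ι → Submodule F V} (h : iSupIndep E) (U : Submodule F V)
    [FiniteDimensional F U] :
    {i | E i ⊓ U ≠ ⊥}.Finite ∧ {i | E i ⊓ U ≠ ⊥}.ncard ≤ finrank F U := by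
  have h1 : ∀ i : {i | E i ⊓ U ≠ ⊥}, ∃ v ∈ E i ⊓ U, v ≠ 0 := fun i =>
    Submodule.exists_mem_ne_zero_of_ne_bot i.2
  choose v hv h0 using h1
  have h2 : LinearIndependent F v :=
    iSupIndep.linearIndependent _ (h.comp Subtype.val_injective) (fun i => (hv i).1) h0
  have h3 : LinearIndependent F fun i => (⟨v i, (hv i).2⟩ : U) :=
    LinearIndependent.of_comp U.subtype h2
  have h4 : Finite {i | E i ⊓ U ≠ ⊥} := h3.finite
  refine ⟨Set.toFinite _, ?_⟩
  have := Fintype.ofFinite {i | E i ⊓ U ≠ ⊥}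
  rw [← Nat.card_coe_set_eq, Nat.card_eq_fintype_card]
  exact h3.fintype_card_le_finrank

theorem eig_center [Finite G] (hp : p.Prime) (hG : IsPGroup p G) (N : Subgroup G) [N.Normal]
    (hN : N ≠ ⊥) : ∃ z ∈ N, z ≠ 1 ∧ ∀ g, g * z * g⁻¹ = z := by
  have := Fact.mk hp
  let _ : MulAction G N := MulAction.compHom N (MulAut.conjNormal : G →* MulAut N)
  have h1 : p ∣ Nat.card N := ((hG.to_subgroup N).card_eq_or_dvd).resolve_left fun h =>
    hN (Subgroup.card_eq_one.1 h)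
  obtain ⟨z, hz, h2⟩ := hG.exists_fixed_point_of_prime_dvd_card_of_fixed_point N h1 (a := 1)
    fun g => map_one (MulAut.conjNormal g : MulAut N)
  exact ⟨z, z.2, fun h => h2 (Subtype.ext h.symm), fun g => congrArg Subtype.val (hz g)⟩

theorem eig_comm (K : Subgroup G) [K.Normal] (a b : G) :
    a * b * a⁻¹ * b⁻¹ ∈ K ↔ Commute (QuotientGroup.mk' K a) (QuotientGroup.mk' K b) := by
  rw [← commutatorElement_eq_one_iff_commute, ← map_commutatorElement, QuotientGroup.mk'_apply,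
    QuotientGroup.eq_one_iff, commutatorElement_def]

theorem exists_self [Finite G] (hp : p.Prime) (hq : ∀ g : G, g ^ p = 1) (K : Subgroup G)
    [K.Normal] : ∃ A : Subgroup G, A.Normal ∧ (∀ a ∈ A, ∀ b ∈ A, a * b * a⁻¹ * b⁻¹ ∈ K) ∧
      ∀ x, (∀ a ∈ A, x * a * x⁻¹ * a⁻¹ ∈ K) → x ∈ A := by
  have hG : IsPGroup p G := fun g => ⟨1, by rw [pow_one, hq]⟩
  obtain ⟨A, ⟨hA, hc⟩, hm⟩ := (Set.toFinite {A : Subgroup G | A.Normal ∧
    ∀ a ∈ A, ∀ b ∈ A, a * b * a⁻¹ * b⁻¹ ∈ K}).exists_maximal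
      ⟨⊥, inferInstance, fun a ha b _ => by rw [Subgroup.mem_bot.1 ha]; simp⟩
  refine ⟨A, hA, hc, fun x hx => by_contra fun hxA => ?_⟩
  have h1 : (A.map (QuotientGroup.mk' K)).Normal := hA.map _ (QuotientGroup.mk'_surjective K)
  set C : Subgroup G := (Subgroup.centralizer (A.map (QuotientGroup.mk' K) : Set (G ⧸ K))).comap
    (QuotientGroup.mk' K) with hC
  have h2 : C.Normal := inferInstance
  have h3 : (C.map (QuotientGroup.mk' A)).Normal := h2.map _ (QuotientGroup.mk'_surjective A)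
  have h4 : x ∈ C := by
    rintro _ ⟨a, ha, rfl⟩
    exact ((eig_comm K _ _).1 (hx a ha)).symm.eq
  obtain ⟨_, ⟨y, hy, rfl⟩, h5, h6⟩ := eig_center hp (hG.to_quotient A)
    (C.map (QuotientGroup.mk' A)) fun h =>
      hxA ((QuotientGroup.eq_one_iff x).1 (Subgroup.mem_bot.1 (h ▸ ⟨x, h4, rfl⟩)))
  set B : Subgroup G := (Subgroup.zpowers (QuotientGroup.mk' A y)).comap (QuotientGroup.mk' A)
    with hB
  have h7 : (Subgroup.zpowers (QuotientGroup.mk' A y)).Normal := ⟨by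
    rintro _ ⟨n, rfl⟩ g
    exact ⟨n, by rw [← conj_zpow, h6]⟩⟩
  have h8 : ∀ b ∈ B, ∃ n : ℤ, ∃ a ∈ A, b = y ^ n * a := by
    rintro b ⟨n, hn⟩
    refine ⟨n, (y ^ n)⁻¹ * b, QuotientGroup.eq.1 ?_, (mul_inv_cancel_left _ _).symm⟩
    exact (map_zpow (QuotientGroup.mk' A) y n).trans hn
  have h9 : ∀ a ∈ A, Commute (QuotientGroup.mk' K a) (QuotientGroup.mk' K y) :=
    fun a ha => hy _ ⟨a, ha, rfl⟩
  have h10 : B ≤ A := hm ⟨inferInstance, fun b hb b' hb' => by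
      obtain ⟨n, a, ha, rfl⟩ := h8 b hb
      obtain ⟨n', a', ha', rfl⟩ := h8 b' hb'
      rw [eig_comm, map_mul, map_mul, map_zpow, map_zpow]
      exact (((Commute.refl _).zpow_zpow n n').mul_right ((h9 a' ha').symm.zpow_left n)).mul_left
        (((h9 a ha).zpow_right n').mul_right ((eig_comm K _ _).1 (hc a ha a' ha')))⟩
    fun a ha => by
      have : QuotientGroup.mk' A a = 1 := (QuotientGroup.eq_one_iff a).2 ha
      rw [hB, Subgroup.mem_comap, this]
      exact one_mem _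
  exact h5 ((QuotientGroup.eq_one_iff y).2 (h10 (Subgroup.mem_zpowers _)))

end Pool.Agent.Lib.MP_9675a1_al.Lr
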