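import Pool.Agent.Lib.MP_9675a1_al.Lr.Perm
import Pool.Agent.Lib.MP_9675a1_al.Lr.Eig

/-! A finite dimensional invariant subspace on which `a` acts non-trivially. -/

namespace Pool.Agent.Lib.MP_9675a1_al.Lr

open Module MulAction

variable {F V G Y ι : Type} [Field F] [AddCommGroup V] [Module F V] [Group G] {p : ℕ}

theorem fd_map (ρ : G →* End F V) (a : G) (χ : G → F) (g : G) :
    (wt (fun h => ρ (h * a * h⁻¹)) χ).map (ρ g) =
      wt (fun h => ρ (h * a * h⁻¹)) fun h => χ (g⁻¹ * h) := by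
  have key : ∀ (χ : G → F) (g : G) (w : V), w ∈ wt (fun h => ρ (h * a * h⁻¹)) χ →
      ρ g w ∈ wt (fun h => ρ (h * a * h⁻¹)) fun h => χ (g⁻¹ * h) := fun χ g w hw =>
    mem_wt.2 fun h => by
      have e : h * a * h⁻¹ * g = g * (g⁻¹ * h * a * (g⁻¹ * h)⁻¹) := by group
      rw [← map_smul, ← mem_wt.1 hw (g⁻¹ * h), ← End.mul_apply, ← End.mul_apply, ← map_mul,
        ← map_mul, e]
  refine le_antisymm ?_ fun v hv => ⟨ρ g⁻¹ v, ?_, apply_inv ρ g v⟩
  · rintro _ ⟨w, hw, rfl⟩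
    exact key χ g w hw
  · simpa using key _ g⁻¹ v hv

theorem fd_le (ρ : G →* End F V) (a : G) {χ : G → F} (h : χ 1 ≠ 1) :
    wt (fun h => ρ (h * a * h⁻¹)) χ ≤ LinearMap.range (ρ a - 1) := fun v hv => by
  have e : ρ a v = χ 1 • v := by simpa using mem_wt.1 hv 1
  refine ⟨(χ 1 - 1)⁻¹ • v, ?_⟩
  have e2 : (ρ a - 1) v = (χ 1 - 1) • v := by
    rw [LinearMap.sub_apply, e, End.one_apply, sub_smul, one_smul]
  rw [map_smul, e2, smul_smul, inv_mul_cancel₀ (sub_ne_zero.2 h), one_smul]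

theorem fd_ne (ρ : G →* End F V) (a : G) {χ : G → F}
    (h : a ∉ fixer ρ (wt (fun h => ρ (h * a * h⁻¹)) χ)) :
    wt (fun h => ρ (h * a * h⁻¹)) χ ⊓ LinearMap.range (ρ a - 1) ≠ ⊥ := fun c => h fun v hv => by
  have e : ρ a v = χ 1 • v := by simpa using mem_wt.1 hv 1
  by_cases h1 : χ 1 = 1
  · rw [e, h1, one_smul]
  · have : v = 0 := (Submodule.eq_bot_iff _).1 c v ⟨hv, fd_le ρ a h1 hv⟩
    rw [this, map_zero]

theorem exists_fd [IsAlgClosed F] (hp : p.Prime) (h0 : (p : F) ≠ 0) (ρ : G →* End F V)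
    (hs : ∀ g, ∃ c : F, ρ g ^ p = c • 1) {a : G} (ha : ρ a ≠ 1) (hq : ρ a ^ p = 1)
    [FiniteDimensional F (LinearMap.range (ρ a - 1))]
    (hc : ∀ g h : G, Commute (ρ (g * a * g⁻¹)) (ρ (h * a * h⁻¹)))
    (hr : ∀ g : G, ρ ((a * g⁻¹) ^ p * g ^ p) = 1) :
    ∃ W : Submodule F V, FiniteDimensional F W ∧ Inv ρ W ∧ a ∉ fixer ρ W := by
  obtain ⟨χ, hχ⟩ := exists_wt (fun h => ρ (h * a * h⁻¹)) (LinearMap.range (ρ a - 1))
    (fun c => ha (sub_eq_zero.1 (LinearMap.range_eq_bot.1 c)))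
    (by
      rintro g _ ⟨v, rfl⟩
      have e : Commute (ρ (g * a * g⁻¹)) (ρ a - 1) :=
        Commute.sub_right (by simpa using hc g 1) (Commute.one_right _)
      exact ⟨ρ (g * a * g⁻¹) v, by rw [← End.mul_apply, ← e.eq, End.mul_apply]⟩)
    (fun g h w _ => by rw [← End.mul_apply, (hc g h).eq, End.mul_apply])
  obtain ⟨w, ⟨⟨v, hv⟩, hw⟩, w0⟩ := (Submodule.ne_bot_iff _).1 hχ
  have hv' : ρ a v - v = w := hv
  have haw : ρ a w ≠ w := fun c =>
    w0 (by rw [← hv', fix_of h0 hq (v := v) (by rw [hv', c]), sub_self])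
  have h1 : χ 1 ≠ 1 := fun c => haw (by simpa [c] using mem_wt.1 hw 1)
  let _ := act ρ
  have sm : ∀ (g : G) (E : Submodule F V), g • E = E.map (ρ g) := fun _ _ => rfl
  have hp' : ∀ (g : G) (E : Submodule F V), g ^ p • E = E := fun g E => by
    obtain ⟨c, e⟩ := hs g
    have c0 : c ≠ 0 := by
      rintro rfl
      apply w0
      rw [← inv_apply ρ (g ^ p) w, map_pow, e, zero_smul, LinearMap.zero_apply, map_zero]
    rw [sm, map_pow, e, Submodule.map_smul _ _ _ c0]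
    exact Submodule.map_id E
  have fin := orbit_finite hp hp' (s := wt (fun h => ρ (h * a * h⁻¹)) χ)
    ((indep_card (wt_indep fun h => ρ (h * a * h⁻¹)) (LinearMap.range (ρ a - 1))).1.image
      (wt fun h => ρ (h * a * h⁻¹))) fun g =>
    (tie hp hp' (fixer ρ) (fun g E x => fixer_conj ρ E g x) (k := a)
      (fun g v _ => by rw [hr g, End.one_apply]) (fun c => haw (c w hw)) g).imp_right
      fun ⟨i, i1, i2⟩ => ⟨i, i1, by
        rw [sm, fd_map] at i2 ⊢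
        exact ⟨_, fd_ne ρ a i2, rfl⟩⟩
  refine ⟨sp ρ (wt (fun h => ρ (h * a * h⁻¹)) χ), ?_, inv_sp _ _,
    fun c => haw (c w (le_sp _ _ hw))⟩
  have := Submodule.finiteDimensional_of_le (fd_le ρ a h1)
  have := fin.to_subtype
  have : ∀ E : orbit G (wt (fun h => ρ (h * a * h⁻¹)) χ), FiniteDimensional F E.1 := by
    rintro ⟨_, g, rfl⟩
    exact inferInstanceAs (FiniteDimensional F (Submodule.map (ρ g) _))
  exact Submodule.finiteDimensional_of_le
    (S₂ := ⨆ E : orbit G (wt (fun h => ρ (h * a * h⁻¹)) χ), E.1)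
    (iSup_le fun g => le_iSup_of_le ⟨_, mem_orbit _ g⟩ le_rfl)

end Pool.Agent.Lib.MP_9675a1_al.Lr
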