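import Pool.Agent.Lib.MP_9675a1_al.Lr.Comm
import Pool.Agent.Lib.MP_9675a1_al.Lr.Fd

/-! The limit theorem over an algebraically closed field. -/

namespace Pool.Agent.Lib.MP_9675a1_al.Lr

open Module MulAction

variable {F V G Y ι : Type} [Field F] [AddCommGroup V] [Module F V] [Group G] {p : ℕ}

/-- The action on the quotient by an invariant subspace. -/
def quo (ρ : G →* End F V) {W : Submodule F V} (hW : Inv ρ W) : G →* End F (V ⧸ W) where
  toFun g := W.mapQ W (ρ g) (hW g)
  map_one' := by ext; simp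
  map_mul' a b := by ext; simp

theorem quo_mk (ρ : G →* End F V) {W : Submodule F V} (hW : Inv ρ W) (g : G) (v : V) :
    quo ρ hW g (W.mkQ v) = W.mkQ (ρ g v) := rfl

/-- The elements that differ from the identity by an operator of finite rank. -/
def frk (ρ : G →* End F V) : Subgroup G where
  carrier := {g | ∃ W : Submodule F V, FiniteDimensional F W ∧ g ∈ into ρ W}
  one_mem' := ⟨⊥, inferInstance, one_mem _⟩
  mul_mem' := by
    rintro a b ⟨A, _, ha⟩ ⟨B, _, hb⟩
    exact ⟨A ⊔ B, inferInstance, mul_mem (fun v => Submodule.mem_sup_left (ha v))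
      fun v => Submodule.mem_sup_right (hb v)⟩
  inv_mem' := by
    rintro a ⟨A, h, ha⟩
    exact ⟨A, h, inv_mem ha⟩

theorem frk_normal (ρ : G →* End F V) : (frk ρ).Normal := ⟨by
  rintro a ⟨A, _, ha⟩ g
  refine ⟨A.map (ρ g), inferInstance, fun v => ⟨_, ha (ρ g⁻¹ v), ?_⟩⟩
  rw [map_sub, apply_inv, map_mul, map_mul, End.mul_apply, End.mul_apply]⟩

theorem frk_fd {ρ : G →* End F V} {g : G} (h : g ∈ frk ρ) :
    FiniteDimensional F (LinearMap.range (ρ g - 1)) := by
  obtain ⟨W, _, h⟩ := h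
  exact Submodule.finiteDimensional_of_le (mem_into.1 h)

theorem frk_scalar {ρ : G →* End F V} (hV : ¬FiniteDimensional F V) {g : G} (h : g ∈ frk ρ)
    {c : F} (hc : ρ g = c • 1) : ρ g = 1 := by
  by_cases h1 : c = 1
  · rw [hc, h1, one_smul]
  obtain ⟨W, _, h⟩ := h
  have hW : W = ⊤ := eq_top_iff.2 fun v _ => by
    have h2 := W.smul_mem (c - 1)⁻¹ (h v)
    have h3 : ρ g v - v = (c - 1) • v := by rw [hc, sub_smul, one_smul]; rfl
    rwa [h3, smul_smul, inv_mul_cancel₀ (sub_ne_zero.2 h1), one_smul] at h2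
  subst hW
  exact (hV (Submodule.topEquiv (R := F) (M := V)).finiteDimensional).elim

theorem lim_aux [IsAlgClosed F] (hp : p.Prime) (h0 : (p : F) ≠ 0) (k : G) (m : ℕ) :
    ∀ (V : Type) [AddCommGroup V] [Module F V] (ρ : G →* End F V),
      (∀ g, ∃ c : F, ρ g ^ p = c • 1) → FiniteDimensional F (LinearMap.range (ρ k - 1)) →
      finrank F (LinearMap.range (ρ k - 1)) = m →
      FiniteDimensional F (sp ρ (LinearMap.range (ρ k - 1))) := by
  induction m using Nat.strong_induction_on with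
  | _ m ih =>
  intro V _ _ ρ hs hk hm
  by_cases hV : FiniteDimensional F V
  · infer_instance
  by_cases h1 : ρ k = 1
  · refine Submodule.finiteDimensional_of_le (S₂ := ⊥) (sp_le (fun g v hv => ?_) ?_)
    · rw [(Submodule.mem_bot F).1 hv, map_zero]
      exact zero_mem _
    · rw [h1, sub_self, LinearMap.range_zero]
  have hkN : k ∈ Subgroup.normalClosure ({k} : Set G) := Subgroup.subset_normalClosure rfl
  have hle : ∀ H : Subgroup G, H.Normal → k ∈ H → Subgroup.normalClosure ({k} : Set G) ≤ H :=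
    fun H _ h => Subgroup.normalClosure_le_normal (Set.singleton_subset_iff.2 h)
  have hN : (Subgroup.normalClosure ({k} : Set G)).Normal := inferInstance
  generalize Subgroup.normalClosure ({k} : Set G) = N at hkN hle hN
  have hf : N ≤ frk ρ := hle _ (frk_normal ρ) ⟨_, hk, mem_into.2 le_rfl⟩
  have hr : ∀ n ∈ N, ∀ g : G, ρ ((n * g⁻¹) ^ p * g ^ p) = 1 := fun n hn g => by
    obtain ⟨c, hc⟩ := hs (n * g⁻¹)
    obtain ⟨d, hd⟩ := hs g
    refine frk_scalar hV (hf ?_) (c := c * d) ?_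
    · rw [← QuotientGroup.eq_one_iff]
      simp [(QuotientGroup.eq_one_iff n).2 hn]
    · rw [map_mul, map_pow, map_pow, hc, hd, smul_mul_smul_comm, mul_one]
  have hq : ∀ n ∈ N, ρ n ^ p = 1 := fun n hn => by simpa using hr n hn 1
  obtain ⟨a, ha, ha1, hc⟩ :=
    exists_comm hp h0 ρ N hq (fun n hn => frk_fd (hf hn)) ⟨k, hkN, h1⟩
  have := frk_fd (hf ha)
  obtain ⟨W, _, hW, haW⟩ := exists_fd hp h0 ρ hs ha1 (hq a ha) hc (hr a ha)
  have hkW : k ∉ fixer ρ W := fun h => haW (hle _ (fixer_normal hW) h ha)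
  obtain ⟨v, hv, hkv⟩ : ∃ v ∈ W, ρ k v ≠ v := by
    by_contra h
    exact hkW fun v hv => by_contra fun h' => h ⟨v, hv, h'⟩
  have e : LinearMap.range (quo ρ hW k - 1) = (LinearMap.range (ρ k - 1)).map W.mkQ := by
    rw [← LinearMap.range_comp, ← LinearMap.range_comp_of_range_eq_top _ W.range_mkQ]
    rfl
  have hfd : FiniteDimensional F (LinearMap.range (quo ρ hW k - 1)) := by
    rw [e]; infer_instance
  have hlt : finrank F (LinearMap.range (quo ρ hW k - 1)) < m := by
    have h2 := (W.mkQ.domRestrict (LinearMap.range (ρ k - 1))).finrank_range_add_finrank_ker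
    have h3 : 0 < finrank F (LinearMap.ker (W.mkQ.domRestrict (LinearMap.range (ρ k - 1)))) := by
      refine finrank_pos_iff_exists_ne_zero.2 ⟨⟨⟨ρ k v - v, v, rfl⟩, ?_⟩, fun h => ?_⟩
      · exact (Submodule.Quotient.mk_eq_zero W).2 (W.sub_mem (hW k v hv) hv)
      · exact hkv (sub_eq_zero.1 (congrArg (fun x => x.1.1) h))
    rw [LinearMap.range_domRestrict, ← e, hm] at h2
    omega
  have hfin := ih _ hlt (V ⧸ W) (quo ρ hW) (fun g => by
    obtain ⟨c, hc⟩ := hs g
    refine ⟨c, ?_⟩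
    rw [← map_pow] at hc ⊢
    ext x
    change W.mkQ (ρ (g ^ p) x) = c • W.mkQ x
    rw [hc, ← map_smul]
    rfl) hfd rfl
  have hsp : sp ρ (LinearMap.range (ρ k - 1)) ≤
      (sp (quo ρ hW) (LinearMap.range (quo ρ hW k - 1))).comap W.mkQ := by
    refine sp_le (fun g x hx => inv_sp (quo ρ hW) _ g _ hx) ?_
    rw [← Submodule.map_le_iff_le_comap, ← e]
    exact le_sp _ _
  refine Module.Finite.iff_fg.2 (Submodule.fg_of_fg_map_of_fg_inf_ker W.mkQ ?_ ?_)
  · exact Module.Finite.iff_fg.1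
      (Submodule.finiteDimensional_of_le (Submodule.map_le_iff_le_comap.2 hsp))
  · exact Module.Finite.iff_fg.1
      (Submodule.finiteDimensional_of_le (inf_le_right.trans W.ker_mkQ.le))

theorem lim_alg [IsAlgClosed F] (hp : p.Prime) (h0 : (p : F) ≠ 0) (ρ : G →* End F V)
    (hs : ∀ g, ∃ c : F, ρ g ^ p = c • 1) (k : G)
    [FiniteDimensional F (LinearMap.range (ρ k - 1))] :
    FiniteDimensional F (sp ρ (LinearMap.range (ρ k - 1))) :=
  lim_aux hp h0 k _ V ρ hs inferInstance rfl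

end Pool.Agent.Lib.MP_9675a1_al.Lr
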