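import Pool.Agent.Lib.MP_9675a1_al.Lr.Conj

/-! Scalars and base change to the algebraic closure. -/

namespace Pool.Agent.Lib.MP_9675a1_al.Lr

open Module MulAction TensorProduct

variable {F V G Y ι : Type} [Field F] [AddCommGroup V] [Module F V] [Group G] {p : ℕ}

theorem base_one (hp : p.Prime) (h0 : (p : F) ≠ 0) (ρ : G →* End F V)
    (hs : ∀ g, ∃ c : F, ρ g ^ p = c • 1) (k : G)
    [FiniteDimensional F (LinearMap.range (ρ k - 1))] :
    (Set.range fun g => ρ (g * k * g⁻¹)).Finite := by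
  let K := AlgebraicClosure F
  let σ : G →* End K (K ⊗[F] V) := (End.baseChangeHom F K V : End F V →* End K (K ⊗[F] V)).comp ρ
  have h1 : ∀ g (a : K) (v : V), σ g (a ⊗ₜ v) = a ⊗ₜ ρ g v := fun _ _ _ => rfl
  have h2 : LinearMap.range (σ k - 1) ≤ (LinearMap.range (ρ k - 1)).baseChange K := by
    rintro _ ⟨x, rfl⟩
    induction x with
    | zero => simp
    | tmul a v =>
      rw [LinearMap.sub_apply, h1, End.one_apply, ← tmul_sub]
      exact Submodule.tmul_mem_baseChange_of_mem a ⟨v, rfl⟩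
    | add x y hx hy =>
      rw [map_add]
      exact Submodule.add_mem _ hx hy
  have : FiniteDimensional K ((LinearMap.range (ρ k - 1)).baseChange K) := Finite.range _
  have := Submodule.finiteDimensional_of_le h2
  have h3 := lim_conj hp (by simpa using (map_ne_zero (algebraMap F K)).2 h0) σ (fun g => by
    obtain ⟨c, hc⟩ := hs g
    refine ⟨algebraMap F K c, ?_⟩
    have h3 := congrArg (End.baseChangeHom F K V) hc
    rwa [map_pow, map_smul, map_one, ← algebraMap_smul K] at h3) k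
  refine Set.Finite.of_finite_image (f := End.baseChangeHom F K V) ?_
    (LinearMap.baseChangeHom_injective F V K).injOn
  rwa [← Set.range_comp]

theorem lim_thm (hp : p.Prime) (h0 : (p : F) ≠ 0) (ρ : G →* End F V)
    (hs : ∀ g, ∃ c : F, ρ g ^ p = c • 1) (u : G) (c : F)
    [FiniteDimensional F (LinearMap.range (ρ u - c • 1))] :
    (Set.range fun g => ρ (g * u * g⁻¹)).Finite := by
  rcases eq_or_ne c 0 with rfl | hc
  · have h1 : LinearMap.range (ρ u - 1) ≤ LinearMap.range (ρ u - (0 : F) • 1) :=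
      fun v _ => ⟨ρ u⁻¹ v, by simp⟩
    have := Submodule.finiteDimensional_of_le h1
    exact base_one hp h0 ρ hs u
  let σ : G × Fˣ →* End F V :=
    { toFun := fun x => (x.2 : F) • ρ x.1
      map_one' := by simp
      map_mul' := fun x y => by
        rw [Prod.fst_mul, Prod.snd_mul, map_mul, Units.val_mul, smul_mul_smul_comm] }
  have h1 : ∀ x : G × Fˣ, σ x = (x.2 : F) • ρ x.1 := fun _ => rfl
  have h2 : LinearMap.range (σ (u, (Units.mk0 c hc)⁻¹) - 1) = LinearMap.range (ρ u - c • 1) := by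
    rw [← LinearMap.range_smul (ρ u - c • 1) c⁻¹ (inv_ne_zero hc), smul_sub, smul_smul,
      inv_mul_cancel₀ hc, one_smul]
    rfl
  have : FiniteDimensional F (LinearMap.range (σ (u, (Units.mk0 c hc)⁻¹) - 1)) := by rwa [h2]
  have h3 := base_one hp h0 σ (fun x => by
    obtain ⟨d, hd⟩ := hs x.1
    exact ⟨(x.2 : F) ^ p * d, by rw [h1, smul_pow, hd, smul_smul]⟩) (u, (Units.mk0 c hc)⁻¹)
  refine (h3.image fun T => c • T).subset ?_
  rintro _ ⟨g, rfl⟩
  refine ⟨_, ⟨(g, 1), rfl⟩, ?_⟩
  simp only [h1, Prod.fst_mul, Prod.snd_mul, Prod.fst_inv, Prod.snd_inv, one_mul, inv_one, mul_one,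
    Units.val_inv_eq_inv_val, Units.val_mk0, smul_smul, mul_inv_cancel₀ hc, one_smul]

end Pool.Agent.Lib.MP_9675a1_al.Lr
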