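import Pool.Agent.Lib.MP_9675a1_al.Lr.Defs

/-! The theorem of Burnside on linear groups of finite exponent. -/

namespace Pool.Agent.Lib.MP_9675a1_al.Lr

open Module MulAction

variable {F V G Y ι : Type} [Field F] [AddCommGroup V] [Module F V] [Group G] {p : ℕ}

theorem burn_fin {α β γ : Type} {f : α → β} {g : α → γ} (hf : (Set.range f).Finite)
    (h : ∀ a b, f a = f b → g a = g b) : (Set.range g).Finite := by
  have : Finite (Set.range f) := hf
  refine (Set.finite_range fun y : Set.range f => g y.2.choose).subset ?_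
  rintro _ ⟨a, rfl⟩
  exact ⟨⟨f a, a, rfl⟩, h _ _ (Exists.choose_spec (⟨a, rfl⟩ : ∃ b, f b = f a))⟩

/-- The image of an irreducible representation spans all endomorphisms. -/
theorem burn_span [IsAlgClosed F] [FiniteDimensional F V] (ρ : G →* End F V)
    (h : ∀ W, Inv ρ W → W = ⊥ ∨ W = ⊤) (f : End F V) : f ∈ Submodule.span F (Set.range ρ) := by
  have : IsSemisimpleModule (Algebra.adjoin F (Set.range ρ)) V := by
    refine (isSemisimpleModule_iff _ _).2 ⟨fun W => ?_⟩
    rcases h (W.restrictScalars F) fun g x hx =>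
      W.smul_mem ⟨_, Algebra.subset_adjoin ⟨g, rfl⟩⟩ hx with e | e
    · exact ⟨⊤, ((Submodule.restrictScalars_eq_bot_iff _ _ _).1 e).symm ▸ isCompl_bot_top⟩
    · exact ⟨⊥, ((Submodule.restrictScalars_eq_top_iff _ _ _).1 e).symm ▸ isCompl_top_bot⟩
  have hc : ∀ φ : End F V, (∀ g x, φ (ρ g x) = ρ g (φ x)) → ∃ c : F, ∀ x, φ x = c • x := by
    intro φ hφ
    rcases subsingleton_or_nontrivial V with _ | _
    · exact ⟨0, fun x => Subsingleton.elim _ _⟩
    obtain ⟨c, hc⟩ := End.exists_eigenvalue φ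
    refine ⟨c, fun x => End.mem_eigenspace_iff.1 ?_⟩
    rw [(h (φ.eigenspace c) fun g v hv => End.mem_eigenspace_iff.2 (by
      rw [hφ, End.mem_eigenspace_iff.1 hv, map_smul])).resolve_left hc]
    trivial
  let g : End (End (Algebra.adjoin F (Set.range ρ)) V) V :=
    { toFun := f
      map_add' := f.map_add
      map_smul' := fun φ m => by
        obtain ⟨c, hc'⟩ := hc (φ.restrictScalars F) fun g x =>
          φ.map_smul ⟨_, Algebra.subset_adjoin ⟨g, rfl⟩⟩ x
        exact (congrArg f (hc' m)).trans ((f.map_smul c m).trans (hc' (f m)).symm) }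
  obtain ⟨s, hs'⟩ := Module.Finite.fg_top (R := F) (M := V)
  obtain ⟨⟨T, h0⟩, hb⟩ := jacobson_density g s
  obtain rfl : T = f := LinearMap.ext_on hs' fun m hm => (hb m hm).symm
  have h1 : T ∈ Subalgebra.toSubmodule (Algebra.adjoin F (Set.range ρ)) := h0
  rwa [Algebra.adjoin_eq_span, ← MonoidHom.coe_mrange, Submonoid.closure_eq] at h1

/-- Operators of exponent `p` have finitely many traces. -/
theorem burn_tr [IsAlgClosed F] (h0 : (p : F) ≠ 0) [FiniteDimensional F V] :
    ∃ T : Set F, T.Finite ∧ ∀ f : End F V, f ^ p = 1 → LinearMap.trace F V f ∈ T := by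
  classical
  have hp : 0 < p := Nat.pos_of_ne_zero fun e => h0 (by rw [e, Nat.cast_zero])
  let R := Polynomial.nthRootsFinset p (1 : F)
  refine ⟨_, Set.finite_range fun c : R → Fin (finrank F V + 1) => ∑ x : R, (c x : ℕ) • (x : F),
    fun f hf => ⟨fun x => ⟨f.charpoly.roots.count (x : F), Nat.lt_succ_of_le
      ((Multiset.count_le_card _ _).trans ((Polynomial.card_roots' _).trans
        f.charpoly_natDegree.le))⟩, ?_⟩⟩
  rw [End.trace_eq_sum_roots_charpoly_of_splits (IsAlgClosed.splits _),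
    Finset.sum_multiset_count_of_subset _ R fun x hx => ?_]
  · exact Finset.sum_coe_sort R fun x => f.charpoly.roots.count x • x
  · obtain ⟨v, hv⟩ := (((End.hasEigenvalue_iff_isRoot_charpoly f x).2
      (Polynomial.isRoot_of_mem_roots (Multiset.mem_toFinset.1 hx))).pow p).exists_hasEigenvector
    have h1 := hv.apply_eq_smul
    rw [hf, End.one_apply] at h1
    refine (Polynomial.mem_nthRootsFinset hp _).2 (smul_left_injective F hv.2 ?_)
    exact h1.symm.trans (one_smul F v).symm

theorem burn_simple [IsAlgClosed F] (h0 : (p : F) ≠ 0) [FiniteDimensional F V] (ρ : G →* End F V)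
    (h : ∀ g, ρ g ^ p = 1) (hs : ∀ W, Inv ρ W → W = ⊥ ∨ W = ⊤) : (Set.range ρ).Finite := by
  obtain ⟨T, hT, ht⟩ := burn_tr (V := V) h0
  obtain ⟨b, hb, hsp, hli⟩ := exists_linearIndependent F (Set.range ρ)
  have : Finite b := hli.setFinite
  have : Finite T := hT
  have hm : ∀ (x : G) (m : b), LinearMap.trace F V (ρ x * m) ∈ T := fun x m => by
    obtain ⟨y, e⟩ := hb m.2
    rw [← e, ← map_mul]
    exact ht _ (h _)
  refine burn_fin (f := fun (x : G) (m : b) => (⟨_, hm x m⟩ : T)) (Set.toFinite _) fun x y e => ?_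
  have h1 : ∀ m, LinearMap.trace F V (ρ x * m) = LinearMap.trace F V (ρ y * m) := fun m => by
    have hm' : m ∈ Submodule.span F b := hsp ▸ burn_span ρ hs m
    induction hm' using Submodule.span_induction with
    | mem m hm' => exact congrArg Subtype.val (congrFun e ⟨m, hm'⟩)
    | zero => simp
    | add u v _ _ hu hv => rw [mul_add, mul_add, map_add, map_add, hu, hv]
    | smul c u _ hu => rw [mul_smul_comm, mul_smul_comm, map_smul, map_smul, hu]
  refine LinearMap.ext fun v => sub_eq_zero.1 ((forall_dual_apply_eq_zero_iff F _).1 fun φ => ?_)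
  have h2 : ∀ f : End F V, LinearMap.trace F V (f * φ.smulRight v) = φ (f v) := fun f => by
    rw [← LinearMap.trace_smulRight φ (f v)]
    exact congrArg _ (LinearMap.ext fun w => by simp)
  rw [map_sub, ← h2, ← h2, h1, sub_self]

/-- An element is determined by its action on an invariant subspace and on the quotient. -/
theorem burn_ext (h0 : (p : F) ≠ 0) (ρ : G →* End F V) (h : ∀ g, ρ g ^ p = 1) {W : Submodule F V}
    {a b : G} (h1 : ∀ w ∈ W, ρ a w = ρ b w) (h2 : ∀ v, ρ (a⁻¹ * b) v - v ∈ W) : ρ a = ρ b := by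
  refine LinearMap.ext fun v => ?_
  have h3 : ρ (a⁻¹ * b) v = v := fix_of h0 (h _) (by
    rw [map_mul ρ, End.mul_apply, ← map_mul ρ, ← h1 _ (h2 v), inv_apply])
  rw [← congrArg (ρ a) h3, map_mul, End.mul_apply, apply_inv]

theorem burn_pow {W : Type} [AddCommGroup W] [Module F W] {f : End F V} {g : End F W}
    {π : V →ₗ[F] W} (h : ∀ v, π (f v) = g (π v)) (n : ℕ) (v : V) :
    π ((f ^ n) v) = (g ^ n) (π v) := by
  induction n with
  | zero => rfl
  | succ n ih => rw [pow_succ', pow_succ', End.mul_apply, End.mul_apply, h, ih]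

theorem burn_sub (ρ : G →* End F V) (h : ∀ g, ρ g ^ p = 1) {W : Submodule F V} (hW : Inv ρ W)
    (g : G) : Representation.subrepresentation ρ W hW g ^ p = 1 :=
  LinearMap.ext fun w => Subtype.ext ((burn_pow (π := W.subtype) (g := ρ g) (fun _ => rfl) p
    w).trans (by rw [h]; rfl))

theorem burn [IsAlgClosed F] (h0 : (p : F) ≠ 0) [FiniteDimensional F V] (ρ : G →* End F V)
    (h : ∀ g, ρ g ^ p = 1) : (Set.range ρ).Finite := by
  induction hn : finrank F V using Nat.strong_induction_on generalizing V with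
  | _ n ih =>
  by_cases hs : ∀ W, Inv ρ W → W = ⊥ ∨ W = ⊤
  · exact burn_simple h0 ρ h hs
  push Not at hs
  obtain ⟨W, hW, hb, ht⟩ := hs
  have h1 := ih _ (hn ▸ Submodule.finrank_lt ht) (Representation.subrepresentation ρ W hW)
    (burn_sub ρ h hW) rfl
  have h2 := ih (finrank F (V ⧸ W)) (by
    have := W.finrank_quotient_add_finrank
    have := Submodule.finrank_eq_zero.not.2 hb
    omega) (Representation.quotient ρ W hW) (fun g => LinearMap.ext fun x => by
      obtain ⟨v, rfl⟩ := W.mkQ_surjective x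
      rw [← burn_pow (π := W.mkQ) (f := ρ g) fun _ => rfl, h]
      rfl) rfl
  refine burn_fin (f := fun g => (Representation.subrepresentation ρ W hW g,
    Representation.quotient ρ W hW g)) ((h1.prod h2).subset ?_) fun a b e => ?_
  · rintro _ ⟨g, rfl⟩
    exact ⟨⟨g, rfl⟩, g, rfl⟩
  · refine burn_ext h0 ρ h (W := W) (fun w hw => congrArg Subtype.val
      (LinearMap.congr_fun (congrArg Prod.fst e) ⟨w, hw⟩)) fun v => ?_
    have h3 : ρ b v - ρ a v ∈ W := (Submodule.Quotient.eq W).1
      (LinearMap.congr_fun (congrArg Prod.snd e) (W.mkQ v)).symm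
    have h4 := hW a⁻¹ _ h3
    rwa [map_sub, inv_apply, ← End.mul_apply, ← map_mul] at h4

theorem fin_of [IsAlgClosed F] (h0 : (p : F) ≠ 0) (ρ : G →* End F V) (h : ∀ g, ρ g ^ p = 1)
    (W : Submodule F V) [FiniteDimensional F W] (hW : ∀ g v, ρ g v - v ∈ W) :
    ∃ (Q : Type) (_ : Group Q) (_ : Finite Q) (σ : Q →* End F V) (π : G →* Q),
      Function.Surjective π ∧ Function.Injective σ ∧ ∀ g, σ (π g) = ρ g := by
  have hi : Inv ρ W := fun g v hv => by simpa using W.add_mem (hW g v) hv
  have h1 : (Set.range ρ.toHomUnits).Finite :=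
    burn_fin (burn h0 (Representation.subrepresentation ρ W hi) (burn_sub ρ h hi)) fun a b e =>
      Units.ext (burn_ext h0 ρ h (W := W) (fun w hw => congrArg Subtype.val
        (LinearMap.congr_fun e ⟨w, hw⟩)) (hW _))
  exact ⟨ρ.toHomUnits.range, inferInstance, h1, (Units.coeHom _).comp (Subgroup.subtype _),
    ρ.toHomUnits.rangeRestrict, MonoidHom.rangeRestrict_surjective _,
    Units.val_injective.comp Subtype.val_injective, fun g => rfl⟩

end Pool.Agent.Lib.MP_9675a1_al.Lr
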