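import Pool.Agent.Lib.MP_9675a1_al.Lr.Simple
import Pool.Agent.Lib.MP_9675a1_al.Lr.Burn

/-! The invariant span of the image of `ρ k - 1` has bounded dimension. -/

namespace Pool.Agent.Lib.MP_9675a1_al.Lr

open Module MulAction

variable {F V G Y ι : Type} [Field F] [AddCommGroup V] [Module F V] [Group G] {p : ℕ}

theorem bd_compl [Finite G] (hp : p.Prime) (h0 : (p : F) ≠ 0) (hq : ∀ g : G, g ^ p = 1)
    (ρ : G →* End F V) {W : Submodule F V} (hW : Inv ρ W) :
    ∃ C : Submodule F V, Inv ρ C ∧ W ⊓ C = ⊥ ∧ W ⊔ C = ⊤ := by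
  have := Fact.mk hp
  obtain ⟨n, hn⟩ := IsPGroup.iff_card.1 (show IsPGroup p G from fun g => ⟨1, by simpa using hq g⟩)
  have : NeZero (Nat.card G : F) := ⟨by rw [hn, Nat.cast_pow]; exact pow_ne_zero _ h0⟩
  obtain ⟨C, hC⟩ := exists_isCompl (α := Subrepresentation ρ) ⟨W, fun g v => hW g v⟩
  exact ⟨C.1, fun g v hv => C.2 g hv, congrArg Subrepresentation.toSubmodule hC.inf_eq_bot,
    congrArg Subrepresentation.toSubmodule hC.sup_eq_top⟩

theorem bd_le {ρ : G →* End F V} {W : Submodule F V} (hW : Inv ρ W) (k : G) :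
    W.map (ρ k - 1) ≤ W := by
  rintro _ ⟨v, hv, rfl⟩
  exact W.sub_mem (hW k v hv) hv

theorem bound [IsAlgClosed F] [Finite G] (hp : p.Prime) (h0 : (p : F) ≠ 0)
    (hq : ∀ g : G, g ^ p = 1) (ρ : G →* End F V) (k : G) (m : ℕ) (W : Submodule F V)
    [FiniteDimensional F W] (hW : Inv ρ W) (hr : finrank F (W.map (ρ k - 1)) ≤ m) :
    finrank F (sp ρ (W.map (ρ k - 1))) ≤ (p * (p * m) + 1) * m * finrank F (W.map (ρ k - 1)) := by
  induction hd : finrank F W using Nat.strong_induction_on generalizing W with | _ d ih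
  by_cases hb : W = ⊥
  · exact (Submodule.finrank_mono (sp_le hW (bd_le hW k))).trans
      (by rw [hb, finrank_bot]; exact Nat.zero_le _)
  obtain ⟨A, ⟨a1, a2, a3⟩, am⟩ := (measure fun X : Submodule F V => finrank F X).wf.has_min
    {X | X ≤ W ∧ Inv ρ X ∧ X ≠ ⊥} ⟨W, le_rfl, hW, hb⟩
  obtain ⟨C, c1, c2, c3⟩ := bd_compl hp h0 hq ρ a2
  have b1 : C ⊓ W ≤ W := inf_le_right
  have b2 : Inv ρ (C ⊓ W) := fun g v hv => ⟨c1 g v hv.1, hW g v hv.2⟩
  have b3 : A ⊔ C ⊓ W = W := by rw [← sup_inf_assoc_of_le _ a1, c3, top_inf_eq]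
  have := Submodule.finiteDimensional_of_le a1
  have := Submodule.finiteDimensional_of_le (sp_le a2 (bd_le a2 k))
  have := Submodule.finiteDimensional_of_le (sp_le b2 (bd_le b2 k))
  have e1 := Submodule.finrank_sup_add_finrank_inf_eq (A.map (ρ k - 1)) ((C ⊓ W).map (ρ k - 1))
  rw [← Submodule.map_sup, b3, eq_bot_iff.2
    ((inf_le_inf (bd_le a2 k) ((bd_le b2 k).trans inf_le_left)).trans c2.le), finrank_bot] at e1
  have e2 := ih _ (hd ▸ Submodule.finrank_lt_finrank_of_lt (b1.lt_of_ne fun h =>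
    a3 (eq_bot_iff.2 (c2 ▸ le_inf le_rfl (a1.trans (h.ge.trans inf_le_left)))))) (C ⊓ W) b2
    (by omega) rfl
  have e3 : finrank F (sp ρ (A.map (ρ k - 1))) ≤
      (p * (p * m) + 1) * m * finrank F (A.map (ρ k - 1)) := by
    by_cases hk : k ∈ fixer ρ A
    · have : A.map (ρ k - 1) ≤ ⊥ := by
        rintro _ ⟨v, hv, rfl⟩
        exact sub_eq_zero.2 (hk v hv)
      exact (Submodule.finrank_mono (sp_le (fun g v hv => by simp_all) this)).trans
        (by rw [finrank_bot]; exact Nat.zero_le _)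
    · refine ((Submodule.finrank_mono (sp_le a2 (bd_le a2 k))).trans
        (bound_simple hp hq ρ k A a2 (fun X x1 x2 => ?_) hk (m := m) (by omega))).trans
        (Nat.le_mul_of_pos_right _ (Nat.pos_of_ne_zero fun h => hk fun v hv => ?_))
      · exact or_iff_not_imp_left.2 fun x3 => Submodule.eq_of_le_of_finrank_le x1
          (not_lt.1 (am X ⟨x1.trans a1, x2, x3⟩))
      · have : (ρ k - 1) v ∈ A.map (ρ k - 1) := ⟨v, hv, rfl⟩
        rw [Submodule.finrank_eq_zero.1 h] at this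
        exact sub_eq_zero.1 this
  have e4 : sp ρ (W.map (ρ k - 1)) ≤ sp ρ (A.map (ρ k - 1)) ⊔ sp ρ ((C ⊓ W).map (ρ k - 1)) := by
    nth_rewrite 1 [← b3]
    rw [Submodule.map_sup]
    exact iSup_le fun g => (Submodule.map_sup _ _ _).le.trans
      (sup_le_sup (le_iSup (fun g => Submodule.map (ρ g) _) g)
        (le_iSup (fun g => Submodule.map (ρ g) _) g))
  refine ((Submodule.finrank_mono e4).trans
    (Submodule.finrank_add_le_finrank_add_finrank _ _)).trans ?_
  rw [add_zero] at e1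
  rw [e1, mul_add]
  exact add_le_add e3 e2

theorem span_fd [IsAlgClosed F] (hp : p.Prime) (h0 : (p : F) ≠ 0) (ρ : G →* End F V)
    (hq : ∀ n, ρ n ^ p = 1) (hf : ∀ n, FiniteDimensional F (LinearMap.range (ρ n - 1))) (k : G) :
    FiniteDimensional F (sp ρ (LinearMap.range (ρ k - 1))) := by
  classical
  obtain ⟨s, hs⟩ := (ρ k - 1).rangeRestrict.exists_rightInverse_of_surjective
    (LinearMap.range_rangeRestrict _)
  obtain ⟨m, hm⟩ : ∃ m, m = finrank F (LinearMap.range (ρ k - 1)) := ⟨_, rfl⟩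
  let X : Finset G → Submodule F V := fun t =>
    t.sup fun n => (LinearMap.range (ρ k - 1)).map (ρ n)
  have x1 : ∀ t, FiniteDimensional F (X t) := fun t => inferInstance
  have x2 : ∀ t, finrank F (X t) ≤ (p * (p * m) + 1) * m * m := fun t => by
    let W : Submodule F V :=
      LinearMap.range s ⊔ (insert k t).sup fun n => LinearMap.range (ρ n - 1)
    have w1 : ∀ n ∈ insert k t, n ∈ into ρ W := fun n hn => mem_into.2
      ((Finset.le_sup (f := fun n => LinearMap.range (ρ n - 1)) hn).trans le_sup_right)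
    obtain ⟨Q, _, _, σ, π, q1, q2, q3⟩ := fin_of h0 (ρ.comp (into ρ W).subtype) (fun g => hq g) W
      fun g v => g.2 v
    have w2 : Inv σ W := fun q v hv => by
      obtain ⟨g, rfl⟩ := q1 q
      have := W.add_mem (g.2 v) hv
      rwa [sub_add_cancel, ← show σ (π g) = ρ g from q3 g] at this
    have w3 : W.map (σ (π ⟨k, w1 k (Finset.mem_insert_self _ _)⟩) - 1) =
        LinearMap.range (ρ k - 1) := by
      rw [q3]
      refine le_antisymm LinearMap.map_le_range fun v hv =>
        ⟨s ⟨v, hv⟩, Submodule.mem_sup_left ⟨_, rfl⟩, ?_⟩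
      exact congrArg Subtype.val (LinearMap.congr_fun hs ⟨v, hv⟩)
    have w4 := bound hp h0 (fun q => q2 (by
      obtain ⟨g, rfl⟩ := q1 q
      rw [map_pow, q3, map_one]
      exact hq g)) σ _ m W w2 (by rw [w3, hm])
    have := Submodule.finiteDimensional_of_le (sp_le w2 (bd_le w2
      (π ⟨k, w1 k (Finset.mem_insert_self _ _)⟩)))
    rw [w3] at w4 this
    rw [← hm] at w4
    refine (Submodule.finrank_mono (Finset.sup_le fun n hn => ?_)).trans w4
    refine le_trans ?_ (le_iSup _ (π ⟨n, w1 n (Finset.mem_insert_of_mem hn)⟩))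
    rw [q3]
    exact le_rfl
  obtain ⟨t, -, ht⟩ := (measure fun t => (p * (p * m) + 1) * m * m - finrank F (X t)).wf.has_min
    Set.univ ⟨∅, trivial⟩
  refine Submodule.finiteDimensional_of_le (S₂ := X t) (iSup_le fun n => ?_)
  have a1 : ¬ _ - finrank F (X (insert n t)) < _ - finrank F (X t) := ht (insert n t) trivial
  have a2 := x2 (insert n t)
  have a3 := x2 t
  rw [Submodule.eq_of_le_of_finrank_le (S₁ := X t) (S₂ := X (insert n t))
    (Finset.sup_mono (Finset.subset_insert _ _)) (by omega)]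
  exact Finset.le_sup (f := fun n => (LinearMap.range (ρ k - 1)).map (ρ n))
    (Finset.mem_insert_self n t)

end Pool.Agent.Lib.MP_9675a1_al.Lr
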