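import Pool.Agent.Lib.MP_9675a1_al.Lr.Bound

/-! An element of a normal subgroup whose conjugates act by commuting operators. -/

namespace Pool.Agent.Lib.MP_9675a1_al.Lr

open Module MulAction

variable {F V G Y ι : Type} [Field F] [AddCommGroup V] [Module F V] [Group G] {p : ℕ}

theorem comm_conj (ρ : G →* End F V) (g y : G) (v : V) :
    ρ (g * y * g⁻¹) v - v = ρ g ((ρ y - 1) (ρ g⁻¹ v)) := by
  rw [LinearMap.sub_apply, End.one_apply, map_sub, apply_inv, map_mul, map_mul, End.mul_apply,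
    End.mul_apply]

theorem exists_comm [IsAlgClosed F] (hp : p.Prime) (h0 : (p : F) ≠ 0) (ρ : G →* End F V)
    (N : Subgroup G) [N.Normal] (hq : ∀ n ∈ N, ρ n ^ p = 1)
    (hf : ∀ n ∈ N, FiniteDimensional F (LinearMap.range (ρ n - 1))) (hk : ∃ k ∈ N, ρ k ≠ 1) :
    ∃ a ∈ N, ρ a ≠ 1 ∧ ∀ g h : G, Commute (ρ (g * a * g⁻¹)) (ρ (h * a * h⁻¹)) := by
  have hN : N.Normal := inferInstance
  haveI := Fact.mk hp
  obtain ⟨W, hW⟩ : ∃ W : G → Submodule F V,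
    ∀ y, W y = sp (ρ.comp N.subtype) (LinearMap.range (ρ y - 1)) := ⟨_, fun _ => rfl⟩
  have hfd : ∀ y ∈ N, FiniteDimensional F (W y) := fun y hy => by
    rw [hW]
    exact span_fd hp h0 (ρ.comp N.subtype) (fun n => hq n n.2) (fun n => hf n n.2) ⟨y, hy⟩
  have hinv : ∀ y, Inv (ρ.comp N.subtype) (W y) := fun y => hW y ▸ inv_sp _ _
  have hle : ∀ y, LinearMap.range (ρ y - 1) ≤ W y := fun y => hW y ▸ le_sp _ _
  have hsp : ∀ y z, y ∈ into ρ (W z) → W y ≤ W z := fun y z h => by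
    rw [hW y]
    exact sp_le (hinv z) (mem_into.1 h)
  have hcj : ∀ n ∈ N, ∀ y, n * y * n⁻¹ ∈ into ρ (W y) := fun n hn y v => by
    rw [comm_conj]
    exact hinv y ⟨n, hn⟩ _ (hle y ⟨_, rfl⟩)
  obtain ⟨x, ⟨hx, hx1⟩, hmin⟩ := exists_minimalFor_of_wellFoundedLT
    (fun y => y ∈ N ∧ ρ y ≠ 1) (fun y => finrank F (W y)) hk
  have hm : ∀ y ∈ N, ρ y ≠ 1 → W y ≤ W x → W y = W x := fun y hy h1 h2 => by
    haveI := hfd x hx
    exact Submodule.eq_of_le_of_finrank_le h2 (hmin ⟨hy, h1⟩ (Submodule.finrank_mono h2))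
  haveI := hfd x hx
  obtain ⟨Q, _, _, σ, π, hπ, hσ, hσπ⟩ := fin_of h0 (ρ.comp (N ⊓ into ρ (W x)).subtype)
    (fun g => hq g g.2.1) (W x) fun g => g.2.2
  have hQ : IsPGroup p Q := fun q => ⟨1, hσ (by
    obtain ⟨g, rfl⟩ := hπ q
    rw [pow_one, map_pow, hσπ, map_one]
    exact hq g g.2.1)⟩
  haveI : Nontrivial Q := ⟨π ⟨x, hx, mem_into.2 (hle x)⟩, 1, fun h => hx1 (by
    have := hσπ ⟨x, hx, mem_into.2 (hle x)⟩
    rw [h, map_one] at this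
    exact this.symm)⟩
  haveI := hQ.center_nontrivial
  obtain ⟨⟨z, hz⟩, hz1⟩ := exists_ne (1 : Subgroup.center Q)
  obtain ⟨⟨a, ha, ha'⟩, rfl⟩ := hπ z
  have ha1 : ρ a ≠ 1 := fun h =>
    hz1 (Subtype.ext (hσ ((hσπ ⟨a, ha, ha'⟩).trans (h.trans σ.map_one.symm))))
  have hax : W a = W x := hm a ha ha1 (hsp a x ha')
  have key : ∀ g : G, ρ (a * (g * a * g⁻¹)) = ρ (g * a * g⁻¹ * a) := fun g => by
    obtain ⟨b, hb⟩ : ∃ b, b = g * a * g⁻¹ := ⟨_, rfl⟩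
    have hbN : b ∈ N := hb ▸ hN.conj_mem a ha g
    rw [← hb]
    by_cases hc : ρ (a * b * a⁻¹ * b⁻¹) = 1
    · rw [show a * b = a * b * a⁻¹ * b⁻¹ * (b * a) by group, map_mul, hc, one_mul]
    have h1 : a * b * a⁻¹ * b⁻¹ ∈ into ρ (W a) := by
      rw [show a * b * a⁻¹ * b⁻¹ = a * (b * a * b⁻¹)⁻¹ by group]
      exact mul_mem (mem_into.2 (hle a)) (inv_mem (hcj b hbN a))
    have h2 : W (a * b * a⁻¹ * b⁻¹) ≤ W b :=
      hsp _ _ (mul_mem (hcj a ha b) (inv_mem (mem_into.2 (hle b))))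
    rw [hm _ (mul_mem (hN.conj_mem b hbN a) (inv_mem hbN)) hc (hax ▸ hsp _ _ h1)] at h2
    have h3 : W b ≤ (W x).map (ρ g) := by
      rw [hW b, ← hax]
      refine sp_le ?_ ?_
      · rintro n _ ⟨w, hw, rfl⟩
        refine ⟨_, hinv a ⟨g⁻¹ * n * g, hN.conj_mem' n n.2 g⟩ w hw, ?_⟩
        change ρ g (ρ (g⁻¹ * n * g) w) = ρ n (ρ g w)
        rw [map_mul, map_mul, End.mul_apply, End.mul_apply, apply_inv]
      · rintro _ ⟨v, rfl⟩
        exact ⟨_, hle a ⟨ρ g⁻¹ v, rfl⟩, by rw [← comm_conj, hb]; rfl⟩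
    haveI := hfd b hbN
    have h4 : W x = W b := Submodule.eq_of_le_of_finrank_le h2
      ((Submodule.finrank_mono h3).trans (Submodule.finrank_map_le _ _))
    have h5 := congrArg σ (Subgroup.mem_center_iff.1 hz (π ⟨b, hbN, h4 ▸ mem_into.2 (hle b)⟩))
    rw [← map_mul, ← map_mul, hσπ, hσπ] at h5
    exact h5.symm
  refine ⟨a, ha, ha1, fun g h => ?_⟩
  have h6 := congrArg (fun T => ρ g * T * ρ g⁻¹) (key (g⁻¹ * h))
  simp only [← map_mul] at h6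
  rw [Commute, SemiconjBy, ← map_mul, ← map_mul]
  refine Eq.trans (congrArg ρ ?_) (h6.trans (congrArg ρ ?_)) <;> group

end Pool.Agent.Lib.MP_9675a1_al.Lr
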