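import Pool.Agent.Lib.MP_9675a1_al.Lr.Alg

/-! An element `k` with `k - 1` of finite rank has finitely many conjugates. -/

namespace Pool.Agent.Lib.MP_9675a1_al.Lr

open Module

variable {F V G : Type} [Field F] [AddCommGroup V] [Module F V] [Group G] {p : ℕ}

/-- The action by conjugation on the endomorphisms. -/
def adj (ρ : G →* End F V) : G →* End F (End F V) where
  toFun g := LinearMap.mulLeftRight F (ρ g, ρ g⁻¹)
  map_one' := LinearMap.ext fun x => by simp
  map_mul' a b := LinearMap.ext fun x => by simp [mul_assoc]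

theorem adj_apply (ρ : G →* End F V) (g : G) (x : End F V) : adj ρ g x = ρ g * x * ρ g⁻¹ := rfl

theorem lim_conj [IsAlgClosed F] (hp : p.Prime) (h0 : (p : F) ≠ 0) (ρ : G →* End F V)
    (hs : ∀ g, ∃ c : F, ρ g ^ p = c • 1) (k : G)
    [FiniteDimensional F (LinearMap.range (ρ k - 1))] :
    (Set.range fun g => ρ (g * k * g⁻¹)).Finite := by
  by_cases hV : FiniteDimensional F V
  · refine ((burn h0 (adj ρ) fun g => LinearMap.ext fun x => ?_).image fun f => f (ρ k)).subset ?_
    · obtain ⟨c, hc⟩ := hs g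
      have h1 : ρ (g ^ p) * ρ (g ^ p)⁻¹ = 1 := by rw [← map_mul, mul_inv_cancel, map_one]
      rw [← map_pow, adj_apply, End.one_apply]
      rw [map_pow, hc] at h1 ⊢
      rw [smul_mul_assoc, one_mul] at h1
      rw [smul_mul_assoc, one_mul, smul_mul_assoc, ← mul_smul_comm, h1, mul_one]
    · rintro _ ⟨g, rfl⟩
      exact ⟨_, ⟨g, rfl⟩, by simp only [adj_apply, map_mul]⟩
  · have := lim_alg hp h0 ρ hs k
    have hq : ∀ n ∈ into ρ (sp ρ (LinearMap.range (ρ k - 1))), ρ n ^ p = 1 := fun n h => by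
      obtain ⟨c, hc⟩ := hs n
      by_contra hn
      have h1 : c - 1 ≠ 0 := fun h => hn (by rw [hc, sub_eq_zero.1 h, one_smul])
      have h2 : sp ρ (LinearMap.range (ρ k - 1)) = ⊤ := eq_top_iff.2 fun v _ => by
        have := Subgroup.pow_mem _ h p v
        rw [map_pow, hc, LinearMap.smul_apply, End.one_apply] at this
        rwa [← Submodule.smul_mem_iff _ h1, sub_smul, one_smul]
      rw [h2] at this
      exact hV (Submodule.topEquiv.finiteDimensional)
    obtain ⟨Q, _, _, σ, π, -, -, h⟩ := fin_of h0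
      (ρ.comp (into ρ (sp ρ (LinearMap.range (ρ k - 1)))).subtype) (fun n => hq n n.2)
      (sp ρ (LinearMap.range (ρ k - 1))) fun n => n.2
    refine (Set.finite_range σ).subset ?_
    rintro _ ⟨g, rfl⟩
    refine ⟨π ⟨g * k * g⁻¹, fun v => ?_⟩, h _⟩
    have := inv_sp ρ _ g _ (le_sp ρ (LinearMap.range (ρ k - 1)) ⟨ρ g⁻¹ v, rfl⟩)
    simpa only [map_mul, End.mul_apply, LinearMap.sub_apply, End.one_apply, map_sub, apply_inv]
      using this

end Pool.Agent.Lib.MP_9675a1_al.Lr
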