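import Mathlib

/-! Vocabulary: invariant subspaces, invariant spans, weight spaces, the action on subspaces. -/

namespace Pool.Agent.Lib.MP_9675a1_al.Lr

open Module

variable {F V G ι : Type} [Field F] [AddCommGroup V] [Module F V] [Group G]

/-- The subspace `W` is invariant. -/
def Inv (ρ : G →* End F V) (W : Submodule F V) : Prop := ∀ g, ∀ v ∈ W, ρ g v ∈ W

/-- The invariant subspace generated by `U`. -/
def sp (ρ : G →* End F V) (U : Submodule F V) : Submodule F V := ⨆ g, U.map (ρ g)

/-- The common eigenspace of the operators `T i` for the eigenvalues `χ i`. -/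
def wt (T : ι → End F V) (χ : ι → F) : Submodule F V := ⨅ i, (T i).eigenspace (χ i)

/-- The elements that fix every vector of `W`. -/
def fixer (ρ : G →* End F V) (W : Submodule F V) : Subgroup G where
  carrier := {g | ∀ v ∈ W, ρ g v = v}
  one_mem' := fun v _ => by simp
  mul_mem' := fun {a b} ha hb v hv => by rw [map_mul, End.mul_apply, hb v hv, ha v hv]
  inv_mem' := fun {a} ha v hv => by
    conv_lhs => rw [← ha v hv]
    rw [← End.mul_apply, ← map_mul, inv_mul_cancel, map_one, End.one_apply]

/-- The elements `g` such that the image of `ρ g - 1` lies in `W`. -/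
def into (ρ : G →* End F V) (W : Submodule F V) : Subgroup G where
  carrier := {g | ∀ v, ρ g v - v ∈ W}
  one_mem' := fun v => by simp
  mul_mem' := fun {a b} ha hb v => by
    have := W.add_mem (ha (ρ b v)) (hb v)
    rwa [sub_add_sub_cancel, ← End.mul_apply, ← map_mul] at this
  inv_mem' := fun {a} ha v => by
    have := W.neg_mem (ha (ρ a⁻¹ v))
    rwa [← End.mul_apply, ← map_mul, mul_inv_cancel, map_one, End.one_apply, neg_sub] at this

/-- The action on the set of subspaces. -/
@[reducible] def act (ρ : G →* End F V) : MulAction G (Submodule F V) where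
  smul g E := E.map (ρ g)
  one_smul E := by
    change E.map (ρ 1) = E
    rw [map_one]; exact Submodule.map_id E
  mul_smul a b E := by
    change E.map (ρ (a * b)) = (E.map (ρ b)).map (ρ a)
    rw [map_mul]; exact Submodule.map_comp _ _ _

theorem mem_wt {T : ι → End F V} {χ : ι → F} {v : V} : v ∈ wt T χ ↔ ∀ i, T i v = χ i • v := by
  simp [wt, Submodule.mem_iInf]

theorem mem_into {ρ : G →* End F V} {W : Submodule F V} {g : G} :
    g ∈ into ρ W ↔ LinearMap.range (ρ g - 1) ≤ W :=
  ⟨by rintro h _ ⟨v, rfl⟩; exact h v, fun h v => h ⟨v, rfl⟩⟩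

theorem inv_apply (ρ : G →* End F V) (g : G) (v : V) : ρ g⁻¹ (ρ g v) = v := by
  rw [← End.mul_apply, ← map_mul, inv_mul_cancel, map_one, End.one_apply]

theorem apply_inv (ρ : G →* End F V) (g : G) (v : V) : ρ g (ρ g⁻¹ v) = v := by
  rw [← End.mul_apply, ← map_mul, mul_inv_cancel, map_one, End.one_apply]

theorem le_sp (ρ : G →* End F V) (U : Submodule F V) : U ≤ sp ρ U := fun v hv =>
  Submodule.mem_iSup_of_mem 1 ⟨v, hv, by simp⟩

theorem inv_sp (ρ : G →* End F V) (U : Submodule F V) : Inv ρ (sp ρ U) := fun g => by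
  change sp ρ U ≤ (sp ρ U).comap (ρ g)
  refine iSup_le fun h => ?_
  rintro _ ⟨v, hv, rfl⟩
  exact Submodule.mem_iSup_of_mem (g * h) ⟨v, hv, by simp⟩

theorem sp_le {ρ : G →* End F V} {U W : Submodule F V} (hW : Inv ρ W) (h : U ≤ W) : sp ρ U ≤ W :=
  iSup_le fun g => by rintro _ ⟨v, hv, rfl⟩; exact hW g v (h hv)

theorem fixer_conj (ρ : G →* End F V) (E : Submodule F V) (g x : G)
    (h : x ∈ fixer ρ (E.map (ρ g))) : g⁻¹ * x * g ∈ fixer ρ E := fun v hv => by
  rw [map_mul, map_mul, End.mul_apply, End.mul_apply, h _ ⟨v, hv, rfl⟩, inv_apply]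

theorem fixer_normal {ρ : G →* End F V} {W : Submodule F V} (hW : Inv ρ W) :
    (fixer ρ W).Normal := ⟨fun x hx g v hv => by
  rw [map_mul, map_mul, End.mul_apply, End.mul_apply, hx _ (hW _ v hv), apply_inv]⟩

/-- An operator of order `p` fixes `v` if it fixes `T v - v`. -/
theorem fix_of {p : ℕ} (h0 : (p : F) ≠ 0) {T : End F V} (hT : T ^ p = 1) {v : V}
    (h : T (T v - v) = T v - v) : T v = v := by
  have h1 : ∀ n : ℕ, (T ^ n) v = v + (n : F) • (T v - v) := fun n => by
    induction n with
    | zero => simp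
    | succ n ih =>
      rw [pow_succ', End.mul_apply, ih, map_add, map_smul, h, Nat.cast_succ, add_smul, one_smul]
      abel
  have h2 := h1 p
  rw [hT, End.one_apply, left_eq_add, smul_eq_zero] at h2
  exact sub_eq_zero.1 (h2.resolve_left h0)

end Pool.Agent.Lib.MP_9675a1_al.Lr
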