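import Pool.Agent.Lib.MP_9675a1_al.Lr.Defs

/-! Actions of exponent `p` in which every cyclic orbit of a point meets a given finite set. -/

namespace Pool.Agent.Lib.MP_9675a1_al.Lr

open Module MulAction

variable {F V G Y ι : Type} [Field F] [AddCommGroup V] [Module F V] [Group G] {p : ℕ}

lemma perm_mod [MulAction G Y] (hq : ∀ (g : G) (y : Y), g ^ p • y = y) (g : G) (n : ℕ) (y : Y) :
    g ^ (n % p) • y = g ^ n • y := by
  conv_rhs => rw [← Nat.mod_add_div n p, pow_add, mul_smul, pow_mul', hq]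

/-- A point moved by `g ^ i` is moved to `g • s` by a power `(g ^ i) ^ j`, `j < p`. -/
lemma perm_inv [MulAction G Y] (hp : p.Prime) (hq : ∀ (g : G) (y : Y), g ^ p • y = y) (g : G)
    {i : ℕ} (hi : ¬ p ∣ i) : ∃ j < p, ∀ y : Y, (g ^ i) ^ j • y = g • y := by
  obtain ⟨j, h1, h2⟩ := Nat.exists_mul_mod_eq_one_of_coprime
    ((hp.coprime_iff_not_dvd).2 hi).symm hp.one_lt
  exact ⟨j, h1, fun y => by rw [← pow_mul, ← perm_mod hq, h2, pow_one]⟩

lemma perm_ndvd [MulAction G Y] (hq : ∀ (g : G) (y : Y), g ^ p • y = y) {g : G} {i : ℕ} {s : Y}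
    (h : g ^ i • s ≠ s) : ¬ p ∣ i := fun h1 =>
  h (by rw [← perm_mod hq, Nat.mod_eq_zero_of_dvd h1, pow_zero, one_smul])

theorem tie [MulAction G Y] (hp : p.Prime) (hq : ∀ (g : G) (y : Y), g ^ p • y = y)
    (Φ : Y → Subgroup G) (hΦ : ∀ (g : G) (y : Y) (x : G), x ∈ Φ (g • y) → g⁻¹ * x * g ∈ Φ y)
    {s : Y} {k : G} (hr : ∀ g : G, (k * g⁻¹) ^ p * g ^ p ∈ Φ s) (hk : k ∉ Φ s) (g : G) :
    g • s = s ∨ ∃ i : ℕ, g ^ i • s ≠ s ∧ k ∉ Φ (g ^ i • s) := by
  by_contra hc
  rw [not_or, not_exists] at hc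
  have key : ∀ n, n + 1 ≤ p → k⁻¹ * ((k * g⁻¹) ^ (n + 1) * g ^ (n + 1)) ∈ Φ s := by
    intro n
    induction n with
    | zero => exact fun _ => by simp
    | succ n ih =>
      intro hn
      have h1 : g ^ (n + 1) • s ≠ s := fun h => by
        obtain ⟨j, -, hj⟩ := perm_inv hp hq g (Nat.not_dvd_of_pos_of_lt n.succ_pos hn)
        exact hc.1 ((hj s).symm.trans ((stabilizer G s).pow_mem h j))
      have h2 := (Φ s).mul_mem (ih (by omega))
        (hΦ _ _ _ (not_not.1 fun h => hc.2 (n + 1) ⟨h1, h⟩))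
      have h3 : k⁻¹ * ((k * g⁻¹) ^ (n + 1 + 1) * g ^ (n + 1 + 1)) =
          k⁻¹ * ((k * g⁻¹) ^ (n + 1) * g ^ (n + 1)) * ((g ^ (n + 1))⁻¹ * k * g ^ (n + 1)) := by
        rw [pow_succ (k * g⁻¹) (n + 1), pow_succ' g (n + 1)]
        simp only [mul_assoc, inv_mul_cancel_left, mul_inv_cancel_left]
      rwa [h3]
  have h4 := key (p - 1) (Nat.sub_add_cancel hp.pos).le
  rw [Nat.sub_add_cancel hp.pos, (Φ s).mul_mem_cancel_right (hr g)] at h4
  exact hk ((Φ s).inv_mem_iff.1 h4)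

/-- The images of `w` under the elements that send `z` to `z'`. -/
def permP (G : Type) [Group G] [MulAction G Y] (z w z' : Y) : Set Y :=
  {x | ∃ h : G, h • z = z' ∧ h • w = x}

lemma perm_fib [MulAction G Y] {z w : Y} (h : (orbit (stabilizer G z) w).Finite) (z' : Y) :
    (permP G z w z').Finite := by
  rcases (permP G z w z').eq_empty_or_nonempty with h0 | ⟨-, u, hu, -⟩
  · exact h0 ▸ Set.finite_empty
  refine (h.image (u • ·)).subset ?_
  rintro _ ⟨a, ha, rfl⟩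
  refine ⟨(u⁻¹ * a) • w, ⟨⟨u⁻¹ * a, ?_⟩, rfl⟩, ?_⟩
  · rw [mem_stabilizer_iff, mul_smul, ha, ← hu, inv_smul_smul]
  · simp only [mul_smul, smul_inv_smul]

lemma perm_step [MulAction G Y] (hp : p.Prime) (hq : ∀ (g : G) (y : Y), g ^ p • y = y)
    {s : Y} {S : Set Y} (hS : S.Finite)
    (h : ∀ g : G, g • s = s ∨ ∃ i : ℕ, g ^ i • s ≠ s ∧ g ^ i • s ∈ S) {g : G} (hg : g • s ≠ s) :
    ∃ i : ℕ, g ^ i • s ≠ s ∧ (orbit (stabilizer G s) (g ^ i • s)).Finite := by
  classical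
  obtain ⟨u, hu⟩ : ∃ u : ℕ × Y → stabilizer G s, ∀ (i : ℕ) (a : stabilizer G s),
      u (i, a • g ^ i • s) • g ^ i • s = a • g ^ i • s :=
    ⟨fun x => if h : ∃ a : stabilizer G s, a • g ^ x.1 • s = x.2 then h.choose else 1,
      fun i a => by
        have h1 : ∃ b : stabilizer G s, b • g ^ i • s = a • g ^ i • s := ⟨a, rfl⟩
        simp only [dif_pos h1]
        exact h1.choose_spec⟩
  obtain ⟨x, hx, h1⟩ := Subgroup.exists_finiteIndex_of_leftCoset_cover
    (H := fun x : ℕ × Y => stabilizer (stabilizer G s) (g ^ x.1 • s)) (g := u)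
    (s := ((Finset.range p).filter fun i => g ^ i • s ≠ s) ×ˢ hS.toFinset)
    (Set.eq_univ_of_forall fun a => by
      have h2 : (a : G) • s = s := a.2
      have h3 : (a : G)⁻¹ • s = s := a⁻¹.2
      rcases h (a * g * (a : G)⁻¹) with h4 | ⟨i, h4, h5⟩
      · rw [mul_smul, mul_smul, h3, smul_eq_iff_eq_inv_smul, h3] at h4
        exact absurd h4 hg
      rw [conj_pow, mul_smul, mul_smul, h3, ← perm_mod hq] at h4 h5
      simp only [Set.mem_iUnion]
      refine ⟨(i % p, a • g ^ (i % p) • s), Finset.mem_product.2 ⟨Finset.mem_filter.2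
        ⟨Finset.mem_range.2 (Nat.mod_lt _ hp.pos), fun h6 => h4 ?_⟩, hS.mem_toFinset.2 h5⟩, ?_⟩
      · rw [h6, h2]
      · rw [mem_leftCoset_iff, SetLike.mem_coe, mem_stabilizer_iff, mul_smul, inv_smul_eq_iff, hu])
  refine ⟨x.1, (Finset.mem_filter.1 (Finset.mem_product.1 hx).1).2, ?_⟩
  have h2 := h1.index_ne_zero
  rw [index_stabilizer] at h2
  exact Set.finite_of_ncard_ne_zero h2

theorem orbit_finite [MulAction G Y] (hp : p.Prime) (hq : ∀ (g : G) (y : Y), g ^ p • y = y)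
    {s : Y} {S : Set Y} (hS : S.Finite)
    (h : ∀ g : G, g • s = s ∨ ∃ i : ℕ, g ^ i • s ≠ s ∧ g ^ i • s ∈ S) :
    (orbit G s).Finite := by
  have h0 : ∀ y, (permP G s s y).Finite := fun y => (Set.finite_singleton y).subset (by
    rintro _ ⟨a, ha, rfl⟩
    exact ha)
  have h1 : ∀ a : G, (∀ y, (permP G s (a • s) y).Finite) → ∀ (n : ℕ) y,
      (permP G s (a ^ n • s) y).Finite := fun a ha n => by
    induction n with
    | zero => simpa only [pow_zero, one_smul] using h0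
    | succ n ih =>
      refine fun y => ((ha y).biUnion fun z _ => ih z).subset ?_
      rintro _ ⟨b, hb, rfl⟩
      refine Set.mem_biUnion (x := b • a • s) ⟨b, hb, rfl⟩ ⟨b * a, mul_smul _ _ _, ?_⟩
      rw [pow_succ', mul_smul, mul_smul]
  have h2 : ∀ (g : G) y, (permP G s (g • s) y).Finite := fun g => by
    by_cases hg : g • s = s
    · rwa [hg]
    obtain ⟨i, h3, h4⟩ := perm_step hp hq hS h hg
    obtain ⟨j, -, hj⟩ := perm_inv hp hq g (perm_ndvd hq h3)
    rw [← hj]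
    exact h1 _ (perm_fib h4) j
  have h3 : ∀ n : ℕ, {x | ∃ a : G, a • s ∈ S ∧ a ^ n • s = x}.Finite := fun n => by
    induction n with
    | zero => exact (Set.finite_singleton s).subset (by rintro _ ⟨a, -, rfl⟩; simp)
    | succ n ih =>
      refine (ih.biUnion (t := fun t => ⋃ y ∈ S, permP G s t y) ?_).subset ?_
      · rintro _ ⟨a, -, rfl⟩
        exact hS.biUnion fun y _ => h2 _ y
      · rintro _ ⟨a, ha, rfl⟩
        refine Set.mem_biUnion (x := a ^ n • s) ⟨a, ha, rfl⟩ (Set.mem_biUnion ha ⟨a, rfl, ?_⟩)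
        rw [pow_succ', mul_smul]
  refine (((Set.finite_lt_nat p).biUnion fun n _ => h3 n).insert s).subset ?_
  rintro _ ⟨g, rfl⟩
  refine (h g).imp id fun ⟨i, h4, h5⟩ => ?_
  obtain ⟨j, h6, hj⟩ := perm_inv hp hq g (perm_ndvd hq h4)
  exact Set.mem_biUnion (x := j) h6 ⟨g ^ i, h5, hj s⟩

theorem orbit_card [MulAction G Y] [Finite G] (hp : p.Prime) (hq : ∀ g : G, g ^ p = 1)
    {s : Y} {S : Set Y} (hS : S.Finite)
    (h : ∀ g : G, g • s = s ∨ ∃ i : ℕ, g ^ i • s ≠ s ∧ g ^ i • s ∈ S) :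
    (orbit G s).ncard ≤ p * S.ncard + 1 := by
  classical
  have := Fintype.ofFinite G
  have hq' : ∀ (g : G) (y : Y), g ^ p • y = y := fun g y => by rw [hq, one_smul]
  obtain ⟨H, hH⟩ : ∃ H : Finset G, H = Finset.univ.filter fun g => g • s = s := ⟨_, rfl⟩
  obtain ⟨A, hA⟩ : ∃ A : Finset G, A = Finset.univ.filter fun g => g • s ∈ S := ⟨_, rfl⟩
  have m1 : ∀ g, g ∈ H ↔ g • s = s := fun g => by simp [hH]
  have m2 : ∀ g, g ∈ A ↔ g • s ∈ S := fun g => by simp [hA]
  have h1 : A.card ≤ H.card * S.ncard := by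
    rw [Set.ncard_eq_toFinset_card S hS]
    refine Finset.card_le_mul_card_image_of_maps_to (f := fun g => g • s)
      (fun a ha => hS.mem_toFinset.2 ((m2 a).1 ha)) _ fun y _ => ?_
    rcases (A.filter fun a => a • s = y).eq_empty_or_nonempty with h0 | ⟨u, hu⟩
    · rw [h0]
      exact Nat.zero_le _
    refine Finset.card_le_card_of_injOn (fun a => u⁻¹ * a) (fun a ha => (m1 _).2 ?_)
      fun a _ b _ e => mul_left_cancel e
    rw [mul_smul, (Finset.mem_filter.1 ha).2, ← (Finset.mem_filter.1 hu).2, inv_smul_smul]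
  have h2 : (Finset.univ : Finset G) ⊆ H ∪ ((Finset.range p).filter fun i => ¬ p ∣ i).biUnion
      fun i => Finset.univ.filter fun g => g ^ i ∈ A := fun g _ => by
    rw [Finset.mem_union, m1, Finset.mem_biUnion]
    refine (h g).imp id fun ⟨i, h3, h4⟩ => ?_
    rw [← perm_mod hq'] at h3 h4
    exact ⟨i % p, Finset.mem_filter.2 ⟨Finset.mem_range.2 (Nat.mod_lt _ hp.pos), perm_ndvd hq' h3⟩,
      Finset.mem_filter.2 ⟨Finset.mem_univ _, (m2 _).2 h4⟩⟩
  have h3 : ∀ i ∈ (Finset.range p).filter fun i => ¬ p ∣ i,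
      (Finset.univ.filter fun g : G => g ^ i ∈ A).card ≤ H.card * S.ncard := fun i hi => by
    refine le_trans (Finset.card_le_card_of_injOn (fun g => g ^ i)
      (fun g hg => (Finset.mem_filter.1 hg).2) fun a _ b _ e => ?_) h1
    obtain ⟨j, -, hj⟩ := Nat.exists_mul_mod_eq_one_of_coprime
      ((hp.coprime_iff_not_dvd).2 (Finset.mem_filter.1 hi).2).symm hp.one_lt
    have h4 : ∀ g : G, (g ^ i) ^ j = g := fun g => by
      rw [← pow_mul, pow_eq_pow_mod _ (hq g), hj, pow_one]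
    rw [← h4 a, ← h4 b]
    exact congrArg (· ^ j) e
  have h4 := (Finset.card_le_card h2).trans ((Finset.card_union_le _ _).trans
    (Nat.add_le_add_left ((Finset.card_biUnion_le_card_mul _ _ _ h3).trans (Nat.mul_le_mul_right _
      ((Finset.card_filter_le _ _).trans (Finset.card_range p).le))) _))
  have h5 : Nat.card (stabilizer G s) = H.card := by
    rw [Nat.card_eq_fintype_card, Fintype.card_subtype, hH]
    simp only [mem_stabilizer_iff]
  rw [Finset.card_univ, ← Nat.card_eq_fintype_card, ← (stabilizer G s).index_mul_card,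
    index_stabilizer, h5] at h4
  refine Nat.le_of_mul_le_mul_right (h4.trans (le_of_eq (by ring)))
    (Finset.card_pos.2 ⟨1, (m1 1).2 (one_smul _ _)⟩)

end Pool.Agent.Lib.MP_9675a1_al.Lr
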