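import Pool.Agent.Lib.MP_9675a1_al.Lr.Perm
import Pool.Agent.Lib.MP_9675a1_al.Lr.Eig

/-! The dimension of a simple module of a finite group of prime exponent is bounded in terms of the
rank of `k - 1` for any element `k` that acts nontrivially. -/

namespace Pool.Agent.Lib.MP_9675a1_al.Lr

open Module MulAction

variable {F V G Y ι : Type} [Field F] [AddCommGroup V] [Module F V] [Group G] {p : ℕ}

theorem finrank_sSup_le {Y : Set (Submodule F V)} (hY : Y.Finite) {t : ℕ}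
    (h : ∀ E ∈ Y, FiniteDimensional F E ∧ finrank F E ≤ t) :
    FiniteDimensional F (sSup Y : Submodule F V) ∧
      finrank F (sSup Y : Submodule F V) ≤ Y.ncard * t := by
  induction Y, hY using Set.Finite.induction_on with
  | empty => rw [sSup_empty]; exact ⟨inferInstance, by simp⟩
  | @insert E Y hE hY ih =>
    obtain ⟨h1, h2⟩ := ih fun E' hE' => h E' (Set.mem_insert_of_mem _ hE')
    obtain ⟨h3, h4⟩ := h E (Set.mem_insert _ _)
    rw [sSup_insert, Set.ncard_insert_of_notMem hE hY]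
    refine ⟨inferInstance, (Submodule.finrank_add_le_finrank_add_finrank _ _).trans ?_⟩
    rw [add_mul, one_mul, add_comm]
    exact add_le_add h2 h4

theorem comm_iff {ρ : G →* End F V} {W : Submodule F V} (hW : Inv ρ W) (x y : G) :
    x * y * x⁻¹ * y⁻¹ ∈ fixer ρ W ↔ ∀ w ∈ W, ρ x (ρ y w) = ρ y (ρ x w) := by
  refine ⟨fun h w hw => ?_, fun h w hw => ?_⟩
  · have := h _ (hW y _ (hW x w hw))
    simpa only [map_mul, End.mul_apply, inv_apply] using this
  · simp only [map_mul, End.mul_apply]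
    rw [h _ (hW _ _ (hW _ _ hw)), apply_inv, apply_inv]

theorem finrank_map_eq (ρ : G →* End F V) (g : G) (E : Submodule F V) :
    finrank F (E.map (ρ g)) = finrank F E :=
  (Submodule.equivMapOfInjective (ρ g) (Function.LeftInverse.injective (inv_apply ρ g)) E
    ).finrank_eq.symm

theorem map_wt {ρ : G →* End F V} {W : Submodule F V} (hW : Inv ρ W) (A : Subgroup G)
    [hA : A.Normal] (g : G) (χ : A → F) :
    (W ⊓ wt (fun a : A => ρ a) χ).map (ρ g) =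
      W ⊓ wt (fun a : A => ρ a) fun a => χ ⟨g⁻¹ * a * g, hA.conj_mem' _ a.2 g⟩ := by
  refine le_antisymm ?_ fun v hv => ⟨ρ g⁻¹ v, ⟨hW _ _ hv.1, mem_wt.2 fun a => ?_⟩, apply_inv ρ g v⟩
  · rintro _ ⟨v, hv, rfl⟩
    refine ⟨hW g v hv.1, mem_wt.2 fun a => ?_⟩
    rw [← map_smul, ← mem_wt.1 hv.2]
    simp only [map_mul, End.mul_apply, apply_inv]
  · have := mem_wt.1 hv.2 ⟨g * a * g⁻¹, hA.conj_mem _ a.2 g⟩
    simp only [map_mul, End.mul_apply] at this
    have h2 : (⟨g⁻¹ * (g * a * g⁻¹) * g, hA.conj_mem' _ (hA.conj_mem _ a.2 g) g⟩ : A) = a :=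
      Subtype.ext (by group)
    rw [h2] at this
    rw [← map_smul, ← this, inv_apply]

theorem finrank_le_of_inj {T : End F V} {E W : Submodule F V} [FiniteDimensional F W] (h : E ≤ W)
    (hi : ∀ v ∈ E, T v = 0 → v = 0) : finrank F E ≤ finrank F (W.map T) := by
  refine LinearMap.finrank_le_finrank_of_injective
    (f := T.restrict (p := E) (q := W.map T) fun v hv => ⟨v, h hv, rfl⟩) ?_
  rw [injective_iff_map_eq_zero]
  exact fun v hv => Subtype.ext (hi v v.2 (congrArg Subtype.val hv))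

theorem supp_card {ρ : G →* End F V} {k : G} (hp : 0 < p) (hq : k ^ p = 1)
    {Z : ι → Submodule F V} (hZ : iSupIndep Z) (hk : ∀ i, ∃ j, (Z i).map (ρ k) = Z j)
    (W : Submodule F V) [FiniteDimensional F W] (hW : ∀ i, Z i ≤ W) :
    {E | E ∈ Set.range Z ∧ k ∉ fixer ρ E}.Finite ∧
      {E | E ∈ Set.range Z ∧ k ∉ fixer ρ E}.ncard ≤ p * finrank F (W.map (ρ k - 1)) := by
  let := act ρ
  let r := orbitRel (Subgroup.zpowers k) (Submodule F V)
  let D : Quotient r → Submodule F V := fun q => ⨆ i ∈ {i | Quotient.mk r (Z i) = q}, Z i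
  have hD : iSupIndep D := fun q => by
    refine (hZ.disjoint_biSup_biSup (s := {i | Quotient.mk r (Z i) = q})
      (t := {i | Quotient.mk r (Z i) = q}ᶜ) disjoint_compl_right).mono_right ?_
    exact iSup₂_le fun q' hq' => biSup_mono fun i hi h => hq' (hi.symm.trans h)
  obtain ⟨h1, h2⟩ := indep_card hD (W.map (ρ k - 1))
  have h3 : {E | E ∈ Set.range Z ∧ k ∉ fixer ρ E} ⊆ (fun x : ℕ × Quotient r => k ^ x.1 • x.2.out) ''
      (Set.Iio p ×ˢ {q | D q ⊓ W.map (ρ k - 1) ≠ ⊥}) := by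
    rintro _ ⟨⟨i, rfl⟩, hi⟩
    obtain ⟨v, hv, hv'⟩ : ∃ v ∈ Z i, ρ k v ≠ v := by
      by_contra! h
      exact hi h
    obtain ⟨j, hj⟩ := hk i
    obtain ⟨⟨z, hz⟩, e⟩ : Z i ∈ orbit (Subgroup.zpowers k) (Quotient.mk r (Z i)).out :=
      Quotient.exact (s := r) (Quotient.out_eq _).symm
    obtain ⟨n, rfl⟩ := (isOfFinOrder_iff_pow_eq_one.2 ⟨p, hp, hq⟩).mem_powers_iff_mem_zpowers.2 hz
    refine ⟨(n % p, Quotient.mk r (Z i)), ⟨Nat.mod_lt _ hp, fun h => hv' ?_⟩, ?_⟩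
    · have a1 : v ∈ D (Quotient.mk r (Z i)) :=
        Submodule.mem_iSup_of_mem i (Submodule.mem_iSup_of_mem rfl hv)
      have a2 : Quotient.mk r (Z j) = Quotient.mk r (Z i) :=
        Quotient.sound ⟨⟨k, Subgroup.mem_zpowers k⟩, hj⟩
      have a3 : ρ k v ∈ D (Quotient.mk r (Z i)) :=
        Submodule.mem_iSup_of_mem j (Submodule.mem_iSup_of_mem a2 (hj ▸ ⟨v, hv, rfl⟩))
      have a4 : ρ k v - v ∈ D (Quotient.mk r (Z i)) ⊓ W.map (ρ k - 1) :=
        ⟨Submodule.sub_mem _ a3 a1, v, hW i hv, rfl⟩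
      rw [h] at a4
      exact sub_eq_zero.1 a4
    · change k ^ (n % p) • _ = _
      rw [← pow_eq_pow_mod n hq]
      exact e
  have h4 := ((Set.finite_Iio p).prod h1).image fun x : ℕ × Quotient r => k ^ x.1 • x.2.out
  refine ⟨h4.subset h3, (Set.ncard_le_ncard h3 h4).trans
    ((Set.ncard_image_le ((Set.finite_Iio p).prod h1)).trans ?_)⟩
  rw [Set.ncard_prod]
  exact Nat.mul_le_mul (by simp [Set.ncard_eq_toFinset_card']) h2

theorem bound_simple [IsAlgClosed F] [Finite G] (hp : p.Prime) (hq : ∀ g : G, g ^ p = 1)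
    (ρ : G →* End F V) (k : G) (W : Submodule F V) [FiniteDimensional F W] (hW : Inv ρ W)
    (hm : ∀ W' ≤ W, Inv ρ W' → W' = ⊥ ∨ W' = W) (hk : k ∉ fixer ρ W) {m : ℕ}
    (hr : finrank F (W.map (ρ k - 1)) ≤ m) : finrank F W ≤ (p * (p * m) + 1) * m := by
  let := act ρ
  have := fixer_normal hW
  obtain ⟨A, hA, h1, h2⟩ := exists_self hp hq (fixer ρ W)
  have W0 : W ≠ ⊥ := fun h => hk fun v hv => by
    rw [h, Submodule.mem_bot] at hv
    rw [hv, map_zero]
  obtain ⟨χ, hχ⟩ := exists_wt (fun a : A => ρ a) W W0 (fun a => hW a)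
    fun a b => (comm_iff hW _ _).1 (h1 _ a.2 _ b.2)
  let Z : (A → F) → Submodule F V := fun χ => W ⊓ wt (fun a : A => ρ a) χ
  have hZ : iSupIndep Z := (wt_indep _).mono fun _ => inf_le_right
  have z1 : ∀ (g : G) χ, ∃ χ', g • Z χ = Z χ' := fun g χ => ⟨_, map_wt hW A g χ⟩
  have z2 : ∀ E ∈ orbit G (Z χ), E ∈ Set.range Z ∧ finrank F E = finrank F (Z χ) := by
    rintro _ ⟨g, rfl⟩
    exact ⟨(z1 g χ).imp fun _ h => h.symm, finrank_map_eq ρ g _⟩
  have z3 : ∀ E ∈ orbit G (Z χ), E ≤ W := fun E hE => by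
    obtain ⟨⟨χ', rfl⟩, -⟩ := z2 E hE
    exact inf_le_left
  have z4 : sSup (orbit G (Z χ)) = W := by
    refine (hm _ (sSup_le z3) fun g => ?_).resolve_left fun h =>
      hχ (eq_bot_iff.2 (h ▸ le_sSup (mem_orbit_self (M := G) (Z χ))))
    change sSup (orbit G (Z χ)) ≤ Submodule.comap (ρ g) (sSup (orbit G (Z χ)))
    refine sSup_le fun E hE => Submodule.map_le_iff_le_comap.1 (le_sSup ?_)
    exact mem_orbit_of_mem_orbit g hE
  have z5 : ∀ {f f' : End F V}, (∀ E ∈ orbit G (Z χ), ∀ v ∈ E, f v = f' v) →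
      ∀ v ∈ W, f v = f' v := fun {f f'} h => by
    change W ≤ LinearMap.eqLocus f f'
    rw [← z4]
    exact sSup_le h
  obtain ⟨s, hs, hks⟩ : ∃ s ∈ orbit G (Z χ), k ∉ fixer ρ s := by
    by_contra! h
    exact hk (z5 (f' := 1) h)
  have ht : finrank F (Z χ) ≤ m := by
    by_cases hkA : k ∈ A
    · obtain ⟨⟨χ', rfl⟩, e⟩ := z2 s hs
      refine e.ge.trans ((finrank_le_of_inj inf_le_left fun v hv h => ?_).trans hr)
      have b1 : ∀ v ∈ Z χ', ρ k v = χ' ⟨k, hkA⟩ • v := fun v hv => mem_wt.1 hv.2 ⟨k, hkA⟩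
      have b2 : χ' ⟨k, hkA⟩ - 1 ≠ 0 := fun h => hks fun v hv => by
        rw [b1 v hv, sub_eq_zero.1 h, one_smul]
      refine (smul_eq_zero.1 ?_).resolve_left b2
      rw [sub_smul, one_smul, ← b1 v hv]
      exact h
    · obtain ⟨E, hE, hkE⟩ : ∃ E ∈ orbit G (Z χ), k • E ≠ E := by
        by_contra! h
        refine hkA (h2 k fun a ha => (comm_iff hW _ _).2
          (z5 (f := ρ k * ρ a) (f' := ρ a * ρ k) fun E hE v hv => ?_))
        have b1 : ρ k v ∈ E := h E hE ▸ (⟨v, hv, rfl⟩ : ρ k v ∈ E.map (ρ k))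
        obtain ⟨⟨χ', rfl⟩, -⟩ := z2 E hE
        rw [End.mul_apply, End.mul_apply, mem_wt.1 hv.2 ⟨a, ha⟩, mem_wt.1 b1.2 ⟨a, ha⟩, map_smul]
      obtain ⟨⟨χ', rfl⟩, e⟩ := z2 E hE
      obtain ⟨χ'', e'⟩ := z1 k χ'
      refine e.ge.trans ((finrank_le_of_inj inf_le_left fun v hv h => ?_).trans hr)
      have b1 : Disjoint (Z χ') (Z χ'') := hZ.pairwiseDisjoint fun h => hkE (e'.trans (h ▸ rfl))
      have b2 : ρ k v ∈ Z χ'' := e' ▸ (⟨v, hv, rfl⟩ : ρ k v ∈ (Z χ').map (ρ k))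
      rw [sub_eq_zero.1 h] at b2
      exact (Submodule.disjoint_def.1 b1) v hv b2
  obtain ⟨s1, s2⟩ := supp_card (ρ := ρ) hp.pos (hq k) hZ (z1 k) W fun _ => inf_le_left
  have s3 := orbit_card (s := s) hp hq s1 fun g => by
    refine (tie hp (fun g y => by rw [hq, one_smul]) (fixer ρ) (fun g y x => fixer_conj ρ y g x)
      (fun g => by rw [hq, hq, one_mul]; exact Subgroup.one_mem _) hks g).imp_right ?_
    rintro ⟨i, a1, a2⟩
    exact ⟨i, a1, (z2 _ (mem_orbit_of_mem_orbit _ hs)).1, a2⟩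
  rw [orbit_eq_iff.2 hs] at s3
  have s4 := (finrank_sSup_le (Y := orbit G (Z χ)) (t := m) (Set.finite_range _) fun E hE =>
    ⟨Submodule.finiteDimensional_of_le (z3 E hE), (z2 E hE).2.le.trans ht⟩).2
  rw [z4] at s4
  refine s4.trans (Nat.mul_le_mul_right _ (s3.trans ?_))
  exact Nat.add_le_add_right (Nat.mul_le_mul_left _ (s2.trans (Nat.mul_le_mul_left _ hr))) _

end Pool.Agent.Lib.MP_9675a1_al.Lr
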