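import Pool.Agent.Lib.MP_9675a1_al.Lr.Base

/-! The local form, by an ultraproduct of fields and modules. -/

namespace Pool.Agent.Lib.MP_9675a1_al.Lr

open Module MulAction

variable {F V G Y ι : Type} [Field F] [AddCommGroup V] [Module F V] [Group G] {p : ℕ}

/-- The ultraproduct of a sequence of vector spaces. -/
theorem exists_ultra (U : Ultrafilter ℕ) (F V : ℕ → Type) [∀ n, Field (F n)]
    [∀ n, AddCommGroup (V n)] [∀ n, Module (F n) (V n)] :
    ∃ (K Q : Type) (_ : Field K) (_ : AddCommGroup Q) (_ : Module K Q)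
      (φ : (∀ n, F n) →+* K) (ψ : (∀ n, V n) →+ Q), Function.Surjective φ ∧
      Function.Surjective ψ ∧ (∀ x, φ x = 0 ↔ ∀ᶠ n in (U : Filter ℕ), x n = 0) ∧
      (∀ v, ψ v = 0 ↔ ∀ᶠ n in (U : Filter ℕ), v n = 0) ∧
      ∀ x v, ψ (fun n => x n • v n) = φ x • ψ v := by
  classical
  let I : Ideal (∀ n, F n) :=
    { carrier := {x | ∀ᶠ n in (U : Filter ℕ), x n = 0}
      zero_mem' := Filter.Eventually.of_forall fun _ => rfl
      add_mem' := fun {a b} ha hb => by
        filter_upwards [ha, hb] with n h1 h2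
        simp [h1, h2]
      smul_mem' := fun c x hx => by
        filter_upwards [hx] with n h
        simp [h] }
  have hI : ∀ x, x ∈ I ↔ ∀ᶠ n in (U : Filter ℕ), x n = 0 := fun _ => Iff.rfl
  have hmax : I.IsMaximal := by
    refine Ideal.isMaximal_iff.2 ⟨fun h => ?_, fun J x hJ hx hxJ => ?_⟩
    · obtain ⟨n, hn⟩ := ((hI _).1 h).exists
      exact one_ne_zero hn
    · have h1 : (1 : ∀ n, F n) - (fun n => (x n)⁻¹) * x ∈ I := by
        have h2 : ∀ᶠ n in (U : Filter ℕ), ¬ x n = 0 := Ultrafilter.eventually_not.2 hx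
        refine (hI _).2 ?_
        filter_upwards [h2] with n h
        simp [h]
      have := J.add_mem (hJ h1) (J.mul_mem_left (fun n => (x n)⁻¹) hxJ)
      rwa [sub_add_cancel] at this
  let N : Submodule (∀ n, F n) (∀ n, V n) :=
    { carrier := {v | ∀ᶠ n in (U : Filter ℕ), v n = 0}
      zero_mem' := Filter.Eventually.of_forall fun _ => rfl
      add_mem' := fun {a b} ha hb => by
        filter_upwards [ha, hb] with n h1 h2
        simp [h1, h2]
      smul_mem' := fun c x hx => by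
        filter_upwards [hx] with n h
        simp [h] }
  have hT : IsTorsionBySet (∀ n, F n) ((∀ n, V n) ⧸ N) I :=
    (isTorsionBySet_quotient_iff N _).2 fun v x hx => by
      change ∀ᶠ n in (U : Filter ℕ), (x • v) n = 0
      filter_upwards [(hI x).1 hx] with n h
      simp [h]
  let : Field ((∀ n, F n) ⧸ I) := Ideal.Quotient.field I
  let : Module ((∀ n, F n) ⧸ I) ((∀ n, V n) ⧸ N) := hT.module
  refine ⟨(∀ n, F n) ⧸ I, (∀ n, V n) ⧸ N, inferInstance, inferInstance, inferInstance,
    Ideal.Quotient.mk I, N.mkQ.toAddMonoidHom, Ideal.Quotient.mk_surjective, N.mkQ_surjective,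
    fun x => Ideal.Quotient.eq_zero_iff_mem, fun v => Submodule.Quotient.mk_eq_zero N,
    fun x v => rfl⟩

/-- A subspace of rank at most `m` is spanned by `m` vectors. -/
theorem exists_span_fin (W : Submodule F V) {m : ℕ} (h : Module.rank F W ≤ m) :
    ∃ b : Fin m → V, Submodule.span F (Set.range b) = W := by
  classical
  have : Module.Finite F W :=
    Module.rank_lt_aleph0_iff.1 (h.trans_lt (Cardinal.natCast_lt_aleph0))
  have h1 : finrank F W ≤ m := Module.finrank_le_of_rank_le h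
  let e := Module.finBasis F W
  refine ⟨fun j => if hj : j.1 < finrank F W then (e ⟨j, hj⟩ : V) else 0, le_antisymm ?_ ?_⟩
  · refine Submodule.span_le.2 ?_
    rintro _ ⟨j, rfl⟩
    dsimp only
    split_ifs
    · exact (e _).2
    · exact W.zero_mem
  · intro w hw
    have h2 : w = ∑ i, e.repr ⟨w, hw⟩ i • (e i : V) := by
      have := congrArg W.subtype (e.sum_repr ⟨w, hw⟩)
      rw [map_sum] at this
      exact this.symm
    rw [h2]
    refine Submodule.sum_mem _ fun i _ => Submodule.smul_mem _ _ (Submodule.subset_span ?_)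
    exact ⟨⟨i, i.2.trans_le h1⟩, by simp⟩

theorem local_one (hp : p.Prime) (r m : ℕ) (u : FreeGroup (Fin r)) : ∃ d : ℕ,
    ∀ (F V : Type) [Field F] [AddCommGroup V] [Module F V], (p : F) ≠ 0 →
    ∀ ρ : FreeGroup (Fin r) →* End F V,
      (∀ w : FreeGroup (Fin r), w.toWord.length ≤ d → ∃ c : F, ρ w ^ p = c • 1) →
      ∀ c : F, Module.rank F (LinearMap.range (ρ u - c • 1)) ≤ m →
        (Set.range fun w => ρ (w * u * w⁻¹)).encard ≤ d := by
  classical
  by_contra hcon
  push Not at hcon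
  choose F V iF iV iM h0 ρ hs c hr hd using hcon
  obtain ⟨K, Q, _, _, _, φ, ψ, hφ, hψ, kφ, kψ, hsm⟩ := exists_ultra (Filter.hyperfilter ℕ) F V
  have hev : ∀ N : ℕ, ∀ᶠ n in (Filter.hyperfilter ℕ : Filter ℕ), N ≤ n := fun N =>
    (Filter.eventually_ge_atTop N).filter_mono Nat.hyperfilter_le_atTop
  have eψ : ∀ v v', ψ v = ψ v' ↔ ∀ᶠ n in (Filter.hyperfilter ℕ : Filter ℕ), v n = v' n :=
    fun v v' => by
      rw [← sub_eq_zero, ← map_sub, kψ]
      simp only [Pi.sub_apply, sub_eq_zero]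
  have lift : ∀ T : ∀ n, End (F n) (V n), ∃ T' : End K Q, ∀ v, T' (ψ v) = ψ fun n => T n (v n) := by
    intro T
    have h1 : ∀ v, ψ (fun n => T n (Function.surjInv hψ (ψ v) n)) = ψ fun n => T n (v n) :=
      fun v => by
        refine (eψ _ _).2 ?_
        filter_upwards [(eψ _ _).1 (Function.surjInv_eq hψ (ψ v))] with n h
        rw [h]
    refine ⟨⟨⟨fun q => ψ fun n => T n (Function.surjInv hψ q n), ?_⟩, ?_⟩, h1⟩
    · intro a b
      obtain ⟨a, rfl⟩ := hψ a
      obtain ⟨b, rfl⟩ := hψ b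
      rw [← map_add, h1, h1, h1, ← map_add]
      congr 1
      funext n
      simp
    · intro a b
      obtain ⟨a, rfl⟩ := hφ a
      obtain ⟨b, rfl⟩ := hψ b
      dsimp only
      rw [← hsm, h1, h1, RingHom.id_apply, ← hsm]
      simp
  choose L hL using lift
  let σ : FreeGroup (Fin r) →* End K Q :=
    { toFun := fun w => L fun n => ρ n w
      map_one' := LinearMap.ext fun q => by
        obtain ⟨v, rfl⟩ := hψ q
        rw [hL]
        simp
      map_mul' := fun a b => LinearMap.ext fun q => by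
        obtain ⟨v, rfl⟩ := hψ q
        rw [End.mul_apply, hL, hL, hL]
        simp }
  have hσ : ∀ w v, σ w (ψ v) = ψ fun n => ρ n w (v n) := fun w v => hL _ v
  have hK : (p : K) ≠ 0 := fun h => by
    rw [← map_natCast φ, kφ] at h
    obtain ⟨n, hn⟩ := h.exists
    exact h0 n (by simpa using hn)
  have hsσ : ∀ w, ∃ e : K, σ w ^ p = e • 1 := fun w => by
    have h1 : ∀ n, ∃ e : F n, w.toWord.length ≤ n → ρ n w ^ p = e • 1 := fun n => by
      by_cases h : w.toWord.length ≤ n
      · obtain ⟨e, he⟩ := hs n w h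
        exact ⟨e, fun _ => he⟩
      · exact ⟨0, fun h' => absurd h' h⟩
    choose e he using h1
    refine ⟨φ e, LinearMap.ext fun q => ?_⟩
    obtain ⟨v, rfl⟩ := hψ q
    rw [← map_pow, hσ, LinearMap.smul_apply, End.one_apply, ← hsm, eψ]
    filter_upwards [hev w.toWord.length] with n hn
    rw [map_pow, he n hn]
    simp
  choose b hb using fun n => exists_span_fin _ (hr n)
  have hA : ∀ v, (σ u - φ c • 1) (ψ v) = ψ fun n => (ρ n u - c n • 1) (v n) := fun v => by
    rw [LinearMap.sub_apply, hσ, LinearMap.smul_apply, End.one_apply, ← hsm, ← map_sub]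
    rfl
  have hle : LinearMap.range (σ u - φ c • 1) ≤
      Submodule.span K (Set.range fun j => ψ fun n => b n j) := by
    rintro _ ⟨q, rfl⟩
    obtain ⟨v, rfl⟩ := hψ q
    have h1 : ∀ n, ∃ a : Fin m → F n, ∑ j, a j • b n j = (ρ n u - c n • 1) (v n) := fun n =>
      (Submodule.mem_span_range_iff_exists_fun _).1 (by rw [hb]; exact ⟨v n, rfl⟩)
    choose a ha using h1
    have h2 : (fun n => (ρ n u - c n • 1) (v n)) = ∑ j, fun n => a n j • b n j := by
      funext n
      rw [← ha, Finset.sum_apply]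
    rw [hA, h2, map_sum]
    refine Submodule.sum_mem _ fun j _ => ?_
    rw [hsm (fun n => a n j) fun n => b n j]
    exact Submodule.smul_mem _ _ (Submodule.subset_span ⟨j, rfl⟩)
  have : FiniteDimensional K (Submodule.span K (Set.range fun j => ψ fun n => b n j)) :=
    FiniteDimensional.span_of_finite K (Set.finite_range _)
  have : FiniteDimensional K (LinearMap.range (σ u - φ c • 1)) :=
    Submodule.finiteDimensional_of_le hle
  have hfd := lim_thm hp hK σ hsσ u (φ c)
  obtain ⟨B, hB⟩ : ∃ B : Finset (FreeGroup (Fin r)),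
      ∀ g, ∃ w ∈ B, σ (w * u * w⁻¹) = σ (g * u * g⁻¹) :=
    ⟨hfd.toFinset.image (Function.invFun fun g => σ (g * u * g⁻¹)), fun g =>
      ⟨_, Finset.mem_image_of_mem _ (hfd.mem_toFinset.2 ⟨g, rfl⟩),
        Function.invFun_eq (f := fun g => σ (g * u * g⁻¹)) ⟨g, rfl⟩⟩⟩
  have eqw : ∀ x y, σ x = σ y → ∀ᶠ n in (Filter.hyperfilter ℕ : Filter ℕ), ρ n x = ρ n y := by
    intro x y h
    have h1 : ∀ n, ∃ v, ρ n x v = ρ n y v → ρ n x = ρ n y := fun n => by
      by_cases h : ρ n x = ρ n y
      · exact ⟨0, fun _ => h⟩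
      · obtain ⟨v, hv⟩ := DFunLike.ne_iff.1 h
        exact ⟨v, fun h' => absurd h' hv⟩
    choose v hv using h1
    have h2 : σ x (ψ v) = σ y (ψ v) := by rw [h]
    rw [hσ, hσ, eψ] at h2
    exact h2.mono hv
  let T : ∀ n, Set (End (F n) (V n)) := fun n => (fun w => ρ n (w * u * w⁻¹)) '' B
  have key : ∀ g, ∀ᶠ n in (Filter.hyperfilter ℕ : Filter ℕ), ρ n (g * u * g⁻¹) ∈ T n := by
    intro g
    obtain ⟨w, hw, h⟩ := hB g
    exact (eqw _ _ h).mono fun n hn => ⟨w, hw, hn⟩
  have k2 := Filter.eventually_all.2 fun x : Fin r × B => key (FreeGroup.of x.1 * x.2)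
  have k3 := Filter.eventually_all.2 fun x : Fin r × B => key ((FreeGroup.of x.1)⁻¹ * x.2)
  obtain ⟨n, e1, e2, e3, e4⟩ := ((key 1).and (k2.and (k3.and (hev B.card)))).exists
  have step : ∀ g, (∀ x : B, ρ n (g * x.1 * u * (g * x.1)⁻¹) ∈ T n) →
      ∀ t ∈ T n, ρ n g * t * ρ n g⁻¹ ∈ T n := fun g h => by
    rintro _ ⟨w, hw, rfl⟩
    have := h ⟨w, hw⟩
    rw [← map_mul, ← map_mul]
    simpa only [mul_inv_rev, mul_assoc] using this
  have hinv : ∀ g, ∀ t ∈ T n, ρ n g * t * ρ n g⁻¹ ∈ T n := fun g => by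
    induction g using FreeGroup.induction_on with
    | C1 => simp
    | of x => exact step _ fun y => e2 (x, y)
    | inv_of x _ => exact step _ fun y => e3 (x, y)
    | mul x y hx hy =>
      intro t ht
      have := hx _ (hy t ht)
      simpa only [mul_inv_rev, map_mul, mul_assoc] using this
  have h4 : (Set.range fun w => ρ n (w * u * w⁻¹)) ⊆ T n := by
    rintro _ ⟨g, rfl⟩
    have := hinv g _ e1
    simpa only [inv_one, one_mul, mul_one, map_mul] using this
  have h5 : (T n).encard ≤ n := by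
    refine (Set.encard_image_le _ _).trans ?_
    rw [Set.encard_coe_eq_coe_finsetCard]
    exact_mod_cast e4
  exact absurd ((Set.encard_le_encard h4).trans h5) (not_le.2 (hd n))

theorem local_thm (hp : p.Prime) (r m : ℕ) : ∃ d : ℕ,
    ∀ (F V : Type) [Field F] [AddCommGroup V] [Module F V], (p : F) ≠ 0 →
    ∀ ρ : FreeGroup (Fin r) →* End F V,
      (∀ w : FreeGroup (Fin r), w.toWord.length ≤ d → ∃ c : F, ρ w ^ p = c • 1) →
      ∀ (u : FreeGroup (Fin r)) (c : F), u.toWord.length ≤ m →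
        Module.rank F (LinearMap.range (ρ u - c • 1)) ≤ m →
        (Set.range fun w => ρ (w * u * w⁻¹)).encard ≤ d := by
  choose d hd using local_one hp r m
  have hf : {u : FreeGroup (Fin r) | u.toWord.length ≤ m}.Finite :=
    (List.finite_length_le (Fin r × Bool) m).preimage FreeGroup.toWord_injective.injOn
  refine ⟨hf.toFinset.sup d, fun F V _ _ _ h0 ρ hs u c hu hr => ?_⟩
  have h1 : d u ≤ hf.toFinset.sup d := Finset.le_sup (hf.mem_toFinset.2 hu)
  exact (hd u F V h0 ρ (fun w hw => hs w (hw.trans h1)) c hr).trans (by exact_mod_cast h1)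

end Pool.Agent.Lib.MP_9675a1_al.Lr
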